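import Pool.Agent.H6.HR.Params
import Pool.Agent.H84.HR.Cover
import Pool.Agent.H84.Pnt.Pi

/-!
# Preliminary lemmas (after `Pool.Agent.H84.HR` and `Pool.Agent.H6.HR`)
-/

set_option autoImplicit false

open Finset Filter Topology Pool.Agent.H6.HR

namespace Pool.Agent.H3.HR

noncomputable section

theorem g_le_one (z m : ℕ) : g z m ≤ 1 := by
  unfold g
  apply Finset.prod_le_one
  · intro w hw
    exact phi_nonneg (mem_P.mp hw).1.two_le _
  · intro w hw
    have h2 : (2 : ℝ) ≤ w := by exact_mod_cast (mem_P.mp hw).1.two_le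
    unfold phi
    split_ifs
    · exact le_rfl
    · rw [div_le_one (by linarith)]
      linarith

theorem primeCounting_succ_le (n : ℕ) : Nat.primeCounting (n + 1) ≤ Nat.primeCounting n + 1 := by
  rw [← card_P, ← card_P]
  have : P (n + 1) ⊆ insert (n + 1) (P n) := by
    intro p hp
    rw [mem_P] at hp
    rw [Finset.mem_insert, mem_P]
    rcases Nat.lt_or_ge n p with h | h
    · left; omega
    · right; exact ⟨hp.1, h⟩
  exact (Finset.card_le_card this).trans (Finset.card_insert_le _ _)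

theorem pi_shift : ∃ C : ℝ, 0 < C ∧ ∀ (x : ℝ) (m : ℕ), 1 ≤ m → 0 < x → 4 ≤ Real.log x →
    Real.log (2 * m) ≤ Real.log x / 2 →
    x / (2 * m) * (1 / Real.log x + (Real.log (2 * m) + 1) / (Real.log x) ^ 2 - C / (Real.log x) ^ 3) ≤
      (Nat.primeCounting ⌊x / (2 * m)⌋₊ : ℝ) := by
  obtain ⟨C, hC, h⟩ := Pool.Agent.H84.Pnt.pi_two
  refine ⟨8 * C, by positivity, fun x m hm hx hL hs => ?_⟩
  have hm0 : (0 : ℝ) < m := by exact_mod_cast hm
  have hm1 : (1 : ℝ) ≤ m := by exact_mod_cast hm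
  set L := Real.log x with hLd
  set s := Real.log (2 * m) with hsd
  set y := x / (2 * m) with hy
  have hL0 : 0 < L := by linarith
  have hs0 : 0 ≤ s := Real.log_nonneg (by linarith)
  have hy0 : 0 < y := by positivity
  have hly : Real.log y = L - s := by
    rw [hy, Real.log_div hx.ne' (by positivity)]
  have hly2 : L / 2 ≤ Real.log y := by rw [hly]; linarith
  have hly0 : 0 < Real.log y := by linarith
  have hyL : Real.log y ≤ L := by rw [hly]; linarith
  have hy2 : 2 ≤ y := by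
    have h1 : Real.exp 1 ≤ y := by
      rw [← Real.le_log_iff_exp_le hy0]
      linarith
    have := Real.exp_one_gt_d9
    linarith
  have h1 := (abs_le.mp (h y hy2)).1
  have h2 : 1 / L + s / L ^ 2 ≤ 1 / Real.log y := by
    rw [hly, div_add_div _ _ hL0.ne' (by positivity), div_le_div_iff₀ (by positivity) (by linarith)]
    have h3 : 0 ≤ L * s ^ 2 := by positivity
    nlinarith
  have h3 : 1 / L ^ 2 ≤ 1 / Real.log y ^ 2 :=
    one_div_le_one_div_of_le (by positivity) (pow_le_pow_left₀ hly0.le hyL 2)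
  have h4 : 1 / Real.log y ^ 3 ≤ 8 / L ^ 3 := by
    have h5 : (L / 2) ^ 3 ≤ Real.log y ^ 3 := pow_le_pow_left₀ (by positivity) hly2 3
    calc 1 / Real.log y ^ 3 ≤ 1 / (L / 2) ^ 3 := one_div_le_one_div_of_le (by positivity) h5
      _ = 8 / L ^ 3 := by
          field_simp
          norm_num
  have h5 : y * (1 / L + s / L ^ 2) ≤ y / Real.log y := by
    calc y * (1 / L + s / L ^ 2) ≤ y * (1 / Real.log y) := mul_le_mul_of_nonneg_left h2 hy0.le
      _ = _ := by ring
  have h6 : y * (1 / L ^ 2) ≤ y / Real.log y ^ 2 := by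
    calc y * (1 / L ^ 2) ≤ y * (1 / Real.log y ^ 2) := mul_le_mul_of_nonneg_left h3 hy0.le
      _ = _ := by ring
  have h7 : C * (y / Real.log y ^ 3) ≤ y * (8 * C / L ^ 3) := by
    calc C * (y / Real.log y ^ 3) = C * y * (1 / Real.log y ^ 3) := by ring
      _ ≤ C * y * (8 / L ^ 3) := mul_le_mul_of_nonneg_left h4 (by positivity)
      _ = _ := by ring
  have e : y * (1 / L + (s + 1) / L ^ 2 - 8 * C / L ^ 3) =
      y * (1 / L + s / L ^ 2) + y * (1 / L ^ 2) - y * (8 * C / L ^ 3) := by ring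
  rw [e]
  linarith

/-- The logarithmic mean over the box. -/
theorem box_log : ∃ K : ℝ, 0 < K ∧ ∀ z V : ℕ, 2 ≤ z → 1 ≤ V →
    (∑ m ∈ box (P z) V, wt (P z) m) * (Real.log z - K) ≤ ∑ m ∈ box (P z) V, wt (P z) m * Real.log (2 * m) := by
  obtain ⟨K, hK, h⟩ := Pool.Agent.CoprimeSieve.mertens_first
  refine ⟨K + 1, by linarith, fun z V hz hV => ?_⟩
  have hPz : ∀ w ∈ P z, w.Prime := fun w hw => (mem_P.mp hw).1
  have h1 := Pool.Agent.H84.HR.sum_wt_log hPz V hV
  have h2 := (abs_le.mp (h z (by exact_mod_cast (by omega : 1 ≤ z)))).1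
  have h3 : Pool.Agent.CoprimeSieve.mE z = ∑ w ∈ P z, Real.log w / w := by
    unfold Pool.Agent.CoprimeSieve.mE
    rw [pr_eq]
  rw [h3] at h2
  have hW : 0 ≤ ∑ m ∈ box (P z) V, wt (P z) m := Finset.sum_nonneg (fun m _ => wt_nonneg hPz m)
  have h4 : ∑ m ∈ box (P z) V, wt (P z) m * Real.log m ≤ ∑ m ∈ box (P z) V, wt (P z) m * Real.log (2 * m) := by
    apply Finset.sum_le_sum
    intro m hm
    apply mul_le_mul_of_nonneg_left _ (wt_nonneg hPz m)
    have hm0 : (0 : ℝ) < m := by exact_mod_cast Nat.pos_of_ne_zero (box_mem hPz hm).1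
    apply Real.log_le_log hm0
    linarith
  refine le_trans ?_ (h1.trans h4)
  apply mul_le_mul_of_nonneg_left _ hW
  linarith

/-- The sieving limit. -/
def zz (θ x : ℝ) : ℕ := ⌊(LL x) ^ θ⌋₊

theorem tendsto_LL : Tendsto (fun x : ℝ => LL x) atTop atTop :=
  Real.tendsto_log_atTop.comp Real.tendsto_log_atTop

theorem card_P_le (z : ℕ) : (P z).card ≤ z := by
  have h : P z ⊆ Finset.Icc 1 z := by
    intro p hp
    rw [mem_P] at hp
    rw [Finset.mem_Icc]
    exact ⟨hp.1.one_le, hp.2⟩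
  have := Finset.card_le_card h
  simpa using this

theorem prod_P_le (z : ℕ) : ∏ w ∈ P z, w ≤ 4 ^ z := by
  have h1 : ∏ p ∈ P z, p ∣ primorial z := by
    unfold primorial
    apply Finset.prod_dvd_prod_of_subset
    intro p hp
    rw [mem_P] at hp
    rw [Finset.mem_filter, Finset.mem_range]
    exact ⟨by omega, hp.1⟩
  exact (Nat.le_of_dvd (primorial_pos z) h1).trans (primorial_le_four_pow z)

end

end Pool.Agent.H3.HR
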