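import Pool.Agent.H3.HR.Thin
import Pool.Agent.H6.HR.Params

/-!
# The primes above `C x log log x / (log x) ^ 2` do not matter
-/

set_option autoImplicit false

open Finset Filter Topology Pool.Agent.H6.HR

namespace Pool.Agent.H3.HR

noncomputable section

/-- A set of integers in `[0, x)` that misses a class modulo every small prime has `O(x / log x)` elements. -/
theorem card_le {x : ℝ} (hx : 0 < x) (hL : 100 ≤ Real.log x) (S : Finset ℤ)
    (hS : ∀ s ∈ S, 0 ≤ s ∧ (s : ℝ) < x)
    (hm : ∀ p : ℕ, p.Prime → (p : ℝ) ≤ Real.exp (Real.log x / 10) → ∃ r : ℤ, ∀ s ∈ S, ¬ (p : ℤ) ∣ s - r) :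
    (S.card : ℝ) ≤ 42 * (x / Real.log x) := by
  classical
  set L := Real.log x with hLd
  have hL0 : 0 < L := by linarith
  have hexpL : Real.exp L = x := Real.exp_log hx
  set D := ⌊Real.exp (L / 10)⌋₊ with hD
  set B := ⌈x⌉₊ with hB
  have hD20 : Real.exp (L / 20) ≤ (D : ℝ) := by
    have h1 := Nat.lt_floor_add_one (Real.exp (L / 10))
    have h2 : 2 ≤ Real.exp (L / 20) := by
      have := Real.add_one_le_exp (L / 20)
      linarith
    have h3 : Real.exp (L / 10) = Real.exp (L / 20) * Real.exp (L / 20) := by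
      rw [← Real.exp_add]; ring_nf
    rw [hD]
    nlinarith
  have hDup : (D : ℝ) ≤ Real.exp (L / 10) := Nat.floor_le (Real.exp_pos _).le
  have hD2 : (2 : ℝ) ≤ D := by
    have := Real.add_one_le_exp (L / 20)
    linarith
  have hD2' : 2 ≤ D := by exact_mod_cast hD2
  have hlD : L / 20 ≤ Real.log D := by
    calc L / 20 = Real.log (Real.exp (L / 20)) := (Real.log_exp _).symm
      _ ≤ _ := Real.log_le_log (Real.exp_pos _) hD20
  have hex : ∀ p : ℕ, ∃ r : ℤ, p.Prime → p ≤ D → ∀ s ∈ S, ¬ (p : ℤ) ∣ s - r := by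
    intro p
    by_cases hp : p.Prime ∧ p ≤ D
    · obtain ⟨r, hr⟩ := hm p hp.1 (le_trans (by exact_mod_cast hp.2) hDup)
      exact ⟨r, fun _ _ => hr⟩
    · exact ⟨0, fun h h' => absurd ⟨h, h'⟩ hp⟩
  choose r hr using hex
  have h1 := card_classes B D 0 hD2' (fun p => (r p % p).toNat)
  have hP0 : P 0 = ∅ := by
    ext p
    rw [mem_P]
    simp only [Finset.notMem_empty, iff_false]
    rintro ⟨h, h'⟩
    have := h.pos
    omega
  rw [hP0, Finset.prod_empty, one_mul] at h1
  have h2 : S.card ≤ ((range B).filter (fun b => ∀ p ∈ P D, 0 < p → ¬ b ≡ (r p % p).toNat [MOD p])).card := by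
    apply Finset.card_le_card_of_injOn (fun s => s.toNat)
    · intro s hs
      have hs' := hS s hs
      simp only [Finset.coe_filter, Set.mem_ofPred_eq, Finset.mem_range]
      refine ⟨?_, ?_⟩
      · have h3 : ((s.toNat : ℕ) : ℝ) < x := by
          have : ((s.toNat : ℕ) : ℤ) = s := Int.toNat_of_nonneg hs'.1
          have h4 : ((s.toNat : ℕ) : ℝ) = (s : ℝ) := by exact_mod_cast this
          rw [h4]
          exact hs'.2
        rw [hB]
        exact Nat.lt_ceil.mpr h3
      · intro p hp _ hmod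
        rw [mem_P] at hp
        apply hr p hp.1 hp.2 s hs
        have hp0 : (0 : ℤ) < p := by exact_mod_cast hp.1.pos
        have h3 := (Int.natCast_modEq_iff).mpr hmod
        rw [Int.toNat_of_nonneg hs'.1, Int.toNat_of_nonneg (Int.emod_nonneg _ hp0.ne')] at h3
        have h4 : s ≡ r p [ZMOD p] := h3.trans (Int.mod_modEq _ _)
        exact (Int.modEq_iff_dvd.mp h4.symm)
    · intro s hs s' hs' h
      have h3 := (hS s hs).1
      have h4 := (hS s' hs').1
      simp only at h
      omega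
  have h2' : (S.card : ℝ) ≤ 2 * B / Real.log D + (D : ℝ) ^ 4 := le_trans (by exact_mod_cast h2) h1
  have hBx : (B : ℝ) ≤ x + 1 := (Nat.ceil_lt_add_one hx.le).le
  have h3 : 2 * (B : ℝ) / Real.log D ≤ 40 * (x + 1) / L := by
    calc 2 * (B : ℝ) / Real.log D ≤ 2 * (x + 1) / (L / 20) := by
          apply div_le_div₀ (by positivity) (by linarith) (by positivity) hlD
      _ = 40 * (x + 1) / L := by field_simp; ring
  have h4 : (D : ℝ) ^ 4 ≤ Real.exp (2 / 5 * L) := by
    calc (D : ℝ) ^ 4 ≤ (Real.exp (L / 10)) ^ 4 := pow_le_pow_left₀ (by positivity) hDup _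
      _ = Real.exp (2 / 5 * L) := by
          rw [← Real.exp_nat_mul]
          congr 1
          push_cast
          ring
  have h5 : L ≤ Real.exp (3 / 5 * L) := by
    have := Real.quadratic_le_exp_of_nonneg (show 0 ≤ 3 / 5 * L by positivity)
    nlinarith
  have h6 : Real.exp (2 / 5 * L) ≤ x / L := by
    rw [le_div_iff₀ hL0]
    calc Real.exp (2 / 5 * L) * L ≤ Real.exp (2 / 5 * L) * Real.exp (3 / 5 * L) :=
          mul_le_mul_of_nonneg_left h5 (Real.exp_pos _).le
      _ = x := by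
          rw [← Real.exp_add, ← hexpL]
          congr 1
          ring
  have h7 : 40 * (x + 1) / L ≤ 41 * (x / L) := by
    rw [← mul_div_assoc]
    apply div_le_div_of_nonneg_right _ hL0.le
    have := Real.add_one_le_exp L
    linarith
  linarith

/-- **The large primes do not matter.** -/
theorem irrelevant (A : ℝ) (hA : 0 < A) : ∀ᶠ x : ℝ in atTop, ∀ S : Finset ℤ, (∀ s ∈ S, 0 ≤ s ∧ (s : ℝ) < x) →
    (∀ q : ℕ, q.Prime → (q : ℝ) ≤ 672 * (A + 1) * x * Real.log (Real.log x) / (Real.log x) ^ 2 →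
      ∃ r : ℤ, ∀ s ∈ S, ¬ (q : ℤ) ∣ s - r) →
    ∃ S' ⊆ S, (1 - (Real.log x) ^ (-A)) * (S.card : ℝ) ≤ (S'.card : ℝ) ∧
      ∀ q : ℕ, q.Prime → ∃ r : ℤ, ∀ s ∈ S', ¬ (q : ℤ) ∣ s - r := by
  have e1 := Real.tendsto_log_atTop.eventually (ev_pow_exp 2 (1 / 8) (by norm_num))
  filter_upwards [e1, ev_L 100, ev_v 4, eventually_ge_atTop 4] with x e1 hL hv hx4
  intro S hS hmiss
  have hx0 : 0 < x := by linarith
  set v := LL x with hvd
  have hv' : Real.log (Real.log x) = v := rfl
  rw [hv'] at hmiss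
  set L := Real.log x with hLd
  have hL0 : 0 < L := by linarith
  have hv0 : 0 < v := by linarith
  have hexpL : Real.exp L = x := Real.exp_log hx0
  have hexpv : Real.exp v = L := Real.exp_log hL0
  rcases S.eq_empty_or_nonempty with hSe | hSne
  · refine ⟨∅, Finset.empty_subset _, ?_, fun q _ => ⟨0, fun s hs => absurd hs (Finset.notMem_empty s)⟩⟩
    rw [hSe]
    simp
  have hS1 : (1 : ℝ) ≤ S.card := by exact_mod_cast hSne.card_pos
  set C := 672 * (A + 1) with hC
  have hC0 : 672 ≤ C := by rw [hC]; linarith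
  set Y := C * x * v / L ^ 2 with hY
  have hYexp : 2 * Real.exp (7 / 8 * L) ≤ Y := by
    rw [hY, le_div_iff₀ (by positivity)]
    calc 2 * Real.exp (7 / 8 * L) * L ^ 2 ≤ 2 * Real.exp (7 / 8 * L) * Real.exp (1 / 8 * L) :=
          mul_le_mul_of_nonneg_left e1 (by positivity)
      _ = 2 * x := by
          rw [mul_assoc, ← Real.exp_add, ← hexpL]
          congr 2
          ring
      _ ≤ C * v * x := by
          apply mul_le_mul_of_nonneg_right _ hx0.le
          nlinarith
      _ = C * x * v := by ring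
  have hexp78 : 1 ≤ Real.exp (7 / 8 * L) := Real.one_le_exp (by positivity)
  set y := ⌊Y⌋₊ with hy
  have hY0 : 0 < Y := by linarith
  have hyY : (y : ℝ) ≤ Y := Nat.floor_le hY0.le
  have hyY2 : Y / 2 ≤ y := by
    have := Nat.lt_floor_add_one Y
    rw [hy]
    linarith
  have hyexp : Real.exp (7 / 8 * L) ≤ y := by linarith
  have hy0 : 0 < y := by
    have : (0 : ℝ) < y := by linarith
    exact_mod_cast this
  have hcard : (S.card : ℝ) ≤ 42 * (x / L) := by
    apply card_le hx0 hL S hS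
    intro p hp hp'
    apply hmiss p hp
    refine hp'.trans ?_
    have : Real.exp (Real.log x / 10) ≤ Real.exp (7 / 8 * L) := Real.exp_le_exp.mpr (by linarith)
    linarith
  set M := 2 * S.card / y with hM
  have hM1 : 2 * S.card ≤ y * (M + 1) := by
    rw [hM]
    exact (Nat.lt_mul_div_succ (2 * S.card) hy0).le
  have hM2 : (M : ℝ) * ((A + 1) * v) ≤ L / 4 := by
    have h1 : (M : ℝ) ≤ (2 * S.card : ℕ) / (y : ℝ) := Nat.cast_div_le
    push_cast at h1
    have h2 : 2 * (S.card : ℝ) / (y : ℝ) ≤ 84 * (x / L) / (Y / 2) :=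
      div_le_div₀ (by positivity) (by linarith) (by positivity) hyY2
    have h3 : 84 * (x / L) / (Y / 2) = 168 * L / (C * v) := by
      rw [hY]
      field_simp
      norm_num
    calc (M : ℝ) * ((A + 1) * v) ≤ (168 * L / (C * v)) * ((A + 1) * v) := by
          apply mul_le_mul_of_nonneg_right _ (by positivity)
          linarith
      _ = L / 4 := by
          rw [hC]
          field_simp
          norm_num
  set τ : ℝ := 1 / 4 * L ^ (-A) with hτ
  have hLA : 0 < L ^ (-A) := Real.rpow_pos_of_pos hL0 _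
  have hLA1 : L ^ (-A) ≤ 1 := Real.rpow_le_one_of_one_le_of_nonpos (by linarith) (by linarith)
  have hτ0 : 0 < τ := by rw [hτ]; positivity
  have hτ1 : τ ≤ 1 := by rw [hτ]; linarith
  have hτexp : Real.exp (-((A + 1) * v)) ≤ τ := by
    have h1 : Real.exp (-v) ≤ 1 / 4 := by
      rw [Real.exp_neg, hexpv]
      rw [inv_le_comm₀ hL0 (by norm_num)]
      linarith
    have h2 : L ^ (-A) = Real.exp (-(A * v)) := by
      rw [Real.rpow_def_of_pos hL0]
      congr 1
      have : Real.log L = v := rfl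
      rw [this]
      ring
    rw [hτ, h2]
    calc Real.exp (-((A + 1) * v)) = Real.exp (-v) * Real.exp (-(A * v)) := by
          rw [← Real.exp_add]
          congr 1
          ring
      _ ≤ _ := mul_le_mul_of_nonneg_right h1 (Real.exp_pos _).le
  have hτM : Real.exp (-(L / 4)) ≤ τ ^ M := by
    calc Real.exp (-(L / 4)) ≤ Real.exp ((M : ℝ) * (-((A + 1) * v))) := by
          apply Real.exp_le_exp.mpr
          linarith
      _ = (Real.exp (-((A + 1) * v))) ^ M := by rw [Real.exp_nat_mul]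
      _ ≤ τ ^ M := pow_le_pow_left₀ (Real.exp_pos _).le hτexp M
  set K := ⌈x⌉₊ with hK
  have hKx : (K : ℝ) ≤ 2 * x := by
    have := Nat.ceil_lt_add_one hx0.le
    linarith
  have hbig : L + 2 ≤ τ ^ M * (y / 2) := by
    have h1 : Real.exp (5 / 8 * L) / 2 ≤ τ ^ M * (y / 2) := by
      calc Real.exp (5 / 8 * L) / 2 = Real.exp (-(L / 4)) * (Real.exp (7 / 8 * L) / 2) := by
            rw [← mul_div_assoc, ← Real.exp_add]
            congr 2
            ring
        _ ≤ τ ^ M * (y / 2) := by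
            apply mul_le_mul hτM _ (by positivity) (by positivity)
            linarith
    have h2 := Real.quadratic_le_exp_of_nonneg (show 0 ≤ 5 / 8 * L by positivity)
    nlinarith
  have hexp : (K : ℝ) * Real.exp (-(τ ^ M * (y / 2))) < 1 / 2 := by
    have h1 : Real.exp (-(τ ^ M * (y / 2))) ≤ Real.exp (-(L + 2)) := Real.exp_le_exp.mpr (by linarith)
    have h2 : (K : ℝ) * Real.exp (-(τ ^ M * (y / 2))) ≤ 2 * x * Real.exp (-(L + 2)) :=
      mul_le_mul hKx h1 (Real.exp_pos _).le (by positivity)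
    have h3 : 2 * x * Real.exp (-(L + 2)) = 2 * Real.exp (-2) := by
      rw [← hexpL, mul_assoc, ← Real.exp_add]
      congr 2
      ring
    have h4 : Real.exp (-2) < 1 / 4 := by
      rw [Real.exp_neg, inv_lt_comm₀ (Real.exp_pos _) (by norm_num)]
      have h5 := Real.quadratic_le_exp_of_nonneg (show (0 : ℝ) ≤ 2 by norm_num)
      norm_num at h5 ⊢
      linarith
    linarith
  obtain ⟨S', hS', hS'c, hS'q⟩ := thin_classes S hy0 hM1 hτ0 hτ1 hexp
  refine ⟨S', hS', ?_, ?_⟩
  · have h1 : 2 * τ * ((S.card : ℝ) + 1) ≤ L ^ (-A) * S.card := by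
      have h2 : 2 * τ * ((S.card : ℝ) + 1) ≤ 2 * τ * (2 * S.card) :=
        mul_le_mul_of_nonneg_left (by linarith) (by positivity)
      have h3 : 2 * τ * (2 * (S.card : ℝ)) = L ^ (-A) * S.card := by
        rw [hτ]
        ring
      linarith
    linarith
  · intro q hq
    rcases le_or_gt (q : ℝ) Y with h | h
    · obtain ⟨r, hr⟩ := hmiss q hq h
      exact ⟨r, fun s hs => hr s (hS' hs)⟩
    · have hyq : y < q := by
        have : (y : ℝ) < q := lt_of_le_of_lt hyY h
        exact_mod_cast this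
      rcases Nat.lt_or_ge K q with h' | h'
      · refine ⟨-1, fun s hs hd => ?_⟩
        obtain ⟨h1, h2⟩ := hS s (hS' hs)
        have h3 : (s : ℝ) < K := lt_of_lt_of_le h2 (Nat.le_ceil _)
        have h4 : s < K := by exact_mod_cast h3
        have h5 := Int.le_of_dvd (by omega) hd
        omega
      · exact hS'q q hyq h'

theorem irrelevance (A : ℝ) (hA : 0 < A) : ∃ x₀ : ℝ, ∀ x : ℝ, x₀ ≤ x → ∀ S : Finset ℤ,
    (∀ s ∈ S, 0 ≤ s ∧ (s : ℝ) < x) →
    (∀ q : ℕ, q.Prime → (q : ℝ) ≤ 672 * (A + 1) * x * Real.log (Real.log x) / (Real.log x) ^ 2 →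
      ∃ r : ℤ, ∀ s ∈ S, ¬ (q : ℤ) ∣ s - r) →
    ∃ S' ⊆ S, (1 - (Real.log x) ^ (-A)) * (S.card : ℝ) ≤ (S'.card : ℝ) ∧
      ∀ q : ℕ, q.Prime → ∃ r : ℤ, ∀ s ∈ S', ¬ (q : ℤ) ∣ s - r := by
  obtain ⟨x₀, hx₀⟩ := (irrelevant A hA).exists_forall_of_atTop
  exact ⟨x₀, hx₀⟩

end

end Pool.Agent.H3.HR
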