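import Pool.Agent.H3.HR.Smooth
import Pool.Agent.H3.HR.Irr

/-!
# The size of the sifted set
-/

set_option autoImplicit false

open Finset Filter Topology Pool.Agent.H6.HR

namespace Pool.Agent.H3.HR

noncomputable section

/-- The main term over a set of positive integers. -/
theorem main_sum' : ∃ C : ℝ, 0 < C ∧ ∀ (z : ℕ) (M : Finset ℕ) (x : ℝ), 0 < x → 4 ≤ Real.log x →
    (∀ m ∈ M, 1 ≤ m ∧ Real.log (2 * m) ≤ Real.log x / 2) →
    x * ((∑ m ∈ M, wt (P z) m) / Real.log x +
      ((∑ m ∈ M, wt (P z) m) + ∑ m ∈ M, wt (P z) m * Real.log (2 * m)) / (Real.log x) ^ 2 -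
      C * (∑ m ∈ M, wt (P z) m) / (Real.log x) ^ 3) ≤
    ∑ m ∈ M, 2 * g z m * (Nat.primeCounting ⌊x / (2 * m)⌋₊ : ℝ) := by
  obtain ⟨C, hC, h⟩ := pi_shift
  refine ⟨C, hC, fun z M x hx hL hs => ?_⟩
  have hL0 : 0 < Real.log x := by linarith
  have e : x * ((∑ m ∈ M, wt (P z) m) / Real.log x +
      ((∑ m ∈ M, wt (P z) m) + ∑ m ∈ M, wt (P z) m * Real.log (2 * m)) / (Real.log x) ^ 2 -
      C * (∑ m ∈ M, wt (P z) m) / (Real.log x) ^ 3) =
      ∑ m ∈ M, x * wt (P z) m * (1 / Real.log x + (Real.log (2 * m) + 1) / (Real.log x) ^ 2 -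
        C / (Real.log x) ^ 3) := by
    have e1 : ∀ m ∈ M, x * wt (P z) m * (1 / Real.log x + (Real.log (2 * m) + 1) / (Real.log x) ^ 2 -
        C / (Real.log x) ^ 3) = (x / Real.log x + x / (Real.log x) ^ 2 - C * x / (Real.log x) ^ 3) * wt (P z) m +
        x / (Real.log x) ^ 2 * (wt (P z) m * Real.log (2 * m)) := by
      intro m _
      ring
    rw [Finset.sum_congr rfl e1, Finset.sum_add_distrib, ← Finset.mul_sum, ← Finset.mul_sum]
    ring
  rw [e]
  apply Finset.sum_le_sum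
  intro m hm
  have hm1 : 1 ≤ m := (hs m hm).1
  have hmr : (0 : ℝ) < m := by exact_mod_cast hm1
  have h1 := h x m hm1 hx hL (hs m hm).2
  have h2 : 0 ≤ 2 * g z m := by
    have := g_nonneg z m
    linarith
  calc x * wt (P z) m * (1 / Real.log x + (Real.log (2 * m) + 1) / (Real.log x) ^ 2 - C / (Real.log x) ^ 3)
      = 2 * g z m * (x / (2 * m) * (1 / Real.log x + (Real.log (2 * m) + 1) / (Real.log x) ^ 2 -
          C / (Real.log x) ^ 3)) := by
        have e2 : wt (P z) m = g z m / m := rfl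
        rw [e2]
        field_simp
    _ ≤ _ := mul_le_mul_of_nonneg_left h1 h2

theorem ev_v_pow (c : ℝ) (n : ℕ) (η : ℝ) (hη : 0 < η) : ∀ᶠ x : ℝ in atTop, c * (LL x) ^ n ≤ (Real.log x) ^ η := by
  have h := tendsto_LL.eventually (ev_pow_exp (n + 1) η hη)
  filter_upwards [h, ev_v |c|, ev_v 0, ev_L 1] with x h1 h2 h3 h4
  have hL0 : 0 < Real.log x := by linarith
  have e : Real.exp (η * LL x) = (Real.log x) ^ η := by
    rw [Real.rpow_def_of_pos hL0]
    congr 1
    have : Real.log (Real.log x) = LL x := rfl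
    rw [this]
    ring
  rw [← e]
  refine le_trans ?_ h1
  rw [pow_succ, mul_comm ((LL x) ^ n)]
  apply mul_le_mul_of_nonneg_right _ (by positivity)
  exact (le_abs_self c).trans h2

/-- Large sets of integers in `[0, x)` that miss a class modulo each prime up to `C x log log x / (log x) ^ 2`. -/
theorem big (C : ℝ) (hC : 1 ≤ C) (δ : ℝ) (hδ : 0 < δ) (hδ1 : δ ≤ 1) : ∀ᶠ x : ℝ in atTop, ∃ T : Finset ℤ,
    (∀ s ∈ T, 0 ≤ s ∧ (s : ℝ) < x) ∧
    (∀ q : ℕ, q.Prime → (q : ℝ) ≤ C * x * LL x / (Real.log x) ^ 2 → ∃ r : ℤ, ∀ s ∈ T, ¬ ((q : ℤ) ∣ s - r)) ∧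
    (Nat.primeCounting ⌊x⌋₊ : ℝ) + ((2 - 2 * δ) * Real.log (LL x) + 4) * (x / (Real.log x) ^ 2) ≤ (T.card : ℝ) := by
  classical
  obtain ⟨C2, hC2, hsum⟩ := main_sum'
  obtain ⟨K, hK, hbl⟩ := box_log
  obtain ⟨C3, hC3, hpi⟩ := Pool.Agent.H84.Pnt.pi_two
  obtain ⟨Cp, hCp, hpile⟩ := pi_le
  set θ := 2 - δ with hθ
  set σ := 1 / 2 - δ / 8 with hσ
  have hθ0 : 0 < θ := by rw [hθ]; linarith
  have e2 := tendsto_LL.eventually ((tendsto_rpow_atTop hθ0).eventually_ge_atTop 3)
  have e3 := tendsto_LL.eventually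
    ((tendsto_rpow_atTop (show 0 < δ / 4 by linarith)).eventually_ge_atTop (14 * 16 / δ))
  have e4 : ∀ᶠ x : ℝ in atTop, (K + C2 + C3 + 20) ≤ δ * Real.log (LL x) := by
    have h := (Real.tendsto_log_atTop.comp tendsto_LL).eventually_ge_atTop ((K + C2 + C3 + 20) / δ)
    filter_upwards [h] with x hx
    have := (div_le_iff₀ (by positivity)).mp hx
    simp only [Function.comp] at this
    linarith
  have e5 := ev_v_pow 40 3 1 one_pos
  have e7 := ev_v_pow (2 * C) 1 (δ / 16) (by positivity)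
  have e8 := ev_v_pow (2 * (2 * C * (1 + 2 * Cp))) 1 (δ / 16) (by positivity)
  filter_upwards [e2, e3, e4, e5, e7, e8, ev_v 4, ev_L 100, ev_v_pow 1 1 (1 / 8) (by norm_num),
    Real.tendsto_log_atTop.eventually (ev_pow_exp 3 (1 / 8) (by norm_num)),
    eventually_ge_atTop 4] with x e2 e3 e4 e5 e7 e8 e9 e10 e11 e12 e13
  set v := LL x with hv
  set L := Real.log x with hL
  rw [Real.rpow_one] at e5
  rw [pow_one] at e7 e8 e11
  set z := zz θ x with hz
  have hv0 : 0 < v := by linarith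
  have hL0 : 0 < L := by linarith
  have hx0 : 0 < x := by linarith
  have hexpv : Real.exp v = L := by
    rw [hv]
    exact Real.exp_log hL0
  have hexpL : Real.exp L = x := Real.exp_log hx0
  have hz2 : 2 ≤ z := by
    rw [hz]
    apply Nat.le_floor
    push_cast
    linarith
  have hzθ : (z : ℝ) ≤ v ^ θ := Nat.floor_le (by positivity)
  have hvθ : v ^ θ ≤ v ^ 2 := by
    calc v ^ θ ≤ v ^ (2 : ℝ) := Real.rpow_le_rpow_of_exponent_le (by linarith) (by rw [hθ]; linarith)
      _ = v ^ 2 := by norm_cast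
  have hzv : (z : ℝ) ≤ v ^ 2 := hzθ.trans hvθ
  have hv3 : 0 < v ^ 3 := pow_pos hv0 3
  have hv23 : v ^ 2 ≤ v ^ 3 := pow_le_pow_right₀ (by linarith) (by norm_num)
  have hvL : v ^ 3 ≤ L := by linarith
  have hv2L : v ^ 2 ≤ L := by linarith
  have hCv1 : 1 ≤ C * v := by
    calc (1 : ℝ) = 1 * 1 := by norm_num
      _ ≤ C * v := mul_le_mul hC (by linarith) (by norm_num) (by linarith)
  have hlv0 : 0 ≤ Real.log v := Real.log_nonneg (by linarith)
  have hPz : ∀ w ∈ P z, w.Prime := fun w hw => (mem_P.mp hw).1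
  -- the exponent bound
  set V := ⌊10 * v⌋₊ - 1 with hV
  have hfl : 10 ≤ ⌊10 * v⌋₊ := Nat.le_floor (by push_cast; linarith)
  have hV1 : (V : ℝ) + 1 ≤ 10 * v := by
    have e : V + 1 = ⌊10 * v⌋₊ := by omega
    have e2 : (V : ℝ) + 1 = (⌊10 * v⌋₊ : ℝ) := by exact_mod_cast e
    rw [e2]
    exact Nat.floor_le (by linarith)
  have hV2 : 10 * v - 2 ≤ (V : ℝ) := by
    have e : V + 1 = ⌊10 * v⌋₊ := by omega
    have e2 : (V : ℝ) + 1 = (⌊10 * v⌋₊ : ℝ) := by exact_mod_cast e
    have := Nat.lt_floor_add_one (10 * v)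
    linarith
  have hVone : 1 ≤ V := by omega
  -- the total weight
  obtain ⟨hW1, hW2⟩ := sum_wt_ge hPz V
  set W := ∑ m ∈ Pool.Agent.H6.HR.box (P z) V, wt (P z) m with hW
  have h2V : L ^ 4 ≤ (2 : ℝ) ^ V := by
    have f1 : (2 : ℝ) ^ V = Real.exp (V * Real.log 2) := by
      rw [← Real.rpow_natCast, Real.rpow_def_of_pos (by norm_num), mul_comm]
    have f2 : L ^ 4 = Real.exp (4 * v) := by
      rw [← hexpv, ← Real.exp_nat_mul]
      norm_num
    have h5 := Real.log_two_gt_d9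
    rw [f1, f2]
    apply Real.exp_le_exp.mpr
    have f3 : (10 * v - 2) * (69 / 100) ≤ V * Real.log 2 :=
      mul_le_mul hV2 (by linarith) (by norm_num) (by positivity)
    linarith
  have hWlow : 1 - 1 / L ^ 3 ≤ W := by
    refine le_trans ?_ hW1
    have f1 : ((P z).card : ℝ) ≤ L := by
      calc ((P z).card : ℝ) ≤ z := by exact_mod_cast card_P_le z
        _ ≤ L := hzv.trans hv2L
    have f2 : ((2 : ℝ) ^ V)⁻¹ ≤ (L ^ 4)⁻¹ := inv_anti₀ (by positivity) h2V
    have f3 : ((P z).card : ℝ) * ((2 : ℝ) ^ V)⁻¹ ≤ 1 / L ^ 3 := by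
      calc ((P z).card : ℝ) * ((2 : ℝ) ^ V)⁻¹ ≤ L * (L ^ 4)⁻¹ := mul_le_mul f1 f2 (by positivity) hL0.le
        _ = 1 / L ^ 3 := by field_simp
    linarith
  -- the shifts
  have hs : ∀ m ∈ Pool.Agent.H6.HR.box (P z) V, Real.log (2 * m) ≤ L / 2 := by
    intro m hm
    obtain ⟨hm0, -, hmle⟩ := box_mem hPz hm
    have hmpos : (0 : ℝ) < m := by exact_mod_cast Nat.pos_of_ne_zero hm0
    have f1 : m ≤ (4 ^ z) ^ V := hmle.trans (Nat.pow_le_pow_left (prod_P_le z) V)
    have f2 : (m : ℝ) ≤ ((4 : ℝ) ^ z) ^ V := by exact_mod_cast f1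
    have f3 : Real.log m ≤ V * (z * Real.log 4) := by
      have := Real.log_le_log hmpos f2
      rwa [Real.log_pow, Real.log_pow] at this
    rw [Real.log_mul (by norm_num) hmpos.ne']
    have f4 := Real.log_two_lt_d9
    have f5 : Real.log 4 ≤ 3 / 2 := by
      rw [show (4 : ℝ) = 2 ^ 2 by norm_num, Real.log_pow]
      push_cast
      linarith
    have f6 : (z : ℝ) * Real.log 4 ≤ v ^ 2 * (3 / 2) := mul_le_mul hzv f5 (Real.log_nonneg (by norm_num)) (by positivity)
    have f7 : (V : ℝ) * (z * Real.log 4) ≤ (10 * v) * (v ^ 2 * (3 / 2)) :=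
      mul_le_mul (by linarith) f6 (by positivity) (by linarith)
    have f8 : 1 ≤ v ^ 3 := one_le_pow₀ (by linarith)
    have f9 : (10 * v) * (v ^ 2 * (3 / 2)) = 15 * v ^ 3 := by ring
    linarith
  have hb := hbl z V hz2 hVone
  set D := ∑ m ∈ Pool.Agent.H6.HR.box (P z) V, wt (P z) m * Real.log (2 * m) with hD
  -- the threshold
  set X := L ^ 2 / (2 * C * v) with hX
  have hX0 : 0 < X := by rw [hX]; positivity
  set E := Real.exp (14 * (z : ℝ) ^ (1 - σ)) with hE
  have hE1 : E ≤ L ^ (δ / 16) := by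
    rw [hE, Real.rpow_def_of_pos hL0]
    apply Real.exp_le_exp.mpr
    have hlogL : Real.log L = v := rfl
    rw [hlogL]
    have f1 : (z : ℝ) ^ (1 - σ) ≤ v ^ (1 - δ / 4) := by
      calc (z : ℝ) ^ (1 - σ) ≤ (v ^ θ) ^ (1 - σ) :=
            Real.rpow_le_rpow (by positivity) hzθ (by rw [hσ]; linarith)
        _ = v ^ (θ * (1 - σ)) := by rw [← Real.rpow_mul hv0.le]
        _ ≤ v ^ (1 - δ / 4) := by
            apply Real.rpow_le_rpow_of_exponent_le (by linarith)
            rw [hθ, hσ]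
            have g1 : (2 - δ) * (1 - (1 / 2 - δ / 8)) = 1 - δ / 4 - δ ^ 2 / 8 := by ring
            have g2 := sq_nonneg δ
            linarith
    have f2 : v ^ (1 - δ / 4) * (14 * 16 / δ) ≤ v := by
      calc v ^ (1 - δ / 4) * (14 * 16 / δ) ≤ v ^ (1 - δ / 4) * v ^ (δ / 4) :=
            mul_le_mul_of_nonneg_left e3 (by positivity)
        _ = v := by
            rw [← Real.rpow_add hv0]
            simp
    have f3 : v ^ (1 - δ / 4) * (14 * 16 / δ) * (δ / 16) = 14 * v ^ (1 - δ / 4) := by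
      field_simp
    have f4 := mul_le_mul_of_nonneg_right f2 (show 0 ≤ δ / 16 by positivity)
    linarith
  have hE0 : 0 < E := Real.exp_pos _
  have hσ1 : 1 / 4 ≤ σ := by rw [hσ]; linarith
  have hσ2 : σ ≤ 1 / 2 := by rw [hσ]; linarith
  have htail := box_tail z V hσ1 hσ2 hX0
  have hcount := box_count z V hσ1 hσ2 hX0
  rw [← hE] at htail hcount
  have hCv : 1 ≤ 2 * C * v := by
    have : 2 * C * v = 2 * (C * v) := by ring
    linarith
  -- the tail
  have htail' : ∑ m ∈ (Pool.Agent.H6.HR.box (P z) V).filter (fun m : ℕ => ¬ (m : ℝ) ≤ X), wt (P z) m ≤ 1 / L := by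
    refine htail.trans ?_
    have f1 : X ^ (-(1 - σ)) = (2 * C * v) ^ (1 - σ) * (L ^ 2) ^ (-(1 - σ)) := by
      rw [hX, Real.div_rpow (by positivity) (by positivity), Real.rpow_neg (by positivity : (0 : ℝ) ≤ 2 * C * v),
        div_inv_eq_mul, mul_comm]
    have f2 : (2 * C * v) ^ (1 - σ) ≤ 2 * C * v := by
      calc (2 * C * v) ^ (1 - σ) ≤ (2 * C * v) ^ (1 : ℝ) :=
            Real.rpow_le_rpow_of_exponent_le hCv (by linarith)
        _ = _ := Real.rpow_one _
    have f3 : (L ^ 2) ^ (-(1 - σ)) = L ^ (-(1 + δ / 4)) := by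
      rw [← Real.rpow_natCast, ← Real.rpow_mul hL0.le]
      congr 1
      rw [hσ]
      push_cast
      ring
    have f4 : 2 * C * v ≤ L ^ (δ / 16) := e7
    calc X ^ (-(1 - σ)) * E ≤ (L ^ (δ / 16) * L ^ (-(1 + δ / 4))) * L ^ (δ / 16) := by
          apply mul_le_mul _ hE1 hE0.le (by positivity)
          rw [f1, f3]
          exact mul_le_mul_of_nonneg_right (f2.trans f4) (by positivity)
      _ = L ^ (-(1 + δ / 8)) := by
          rw [← Real.rpow_add hL0, ← Real.rpow_add hL0]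
          congr 1
          ring
      _ ≤ L ^ (-1 : ℝ) := Real.rpow_le_rpow_of_exponent_le (by linarith) (by linarith)
      _ = 1 / L := by rw [Real.rpow_neg_one, one_div]
  set M := (Pool.Agent.H6.HR.box (P z) V).filter (fun m : ℕ => (m : ℝ) ≤ X) with hM
  set W' := ∑ m ∈ M, wt (P z) m with hW'
  set D' := ∑ m ∈ M, wt (P z) m * Real.log (2 * m) with hD'
  have hWsplit : W = W' + ∑ m ∈ (Pool.Agent.H6.HR.box (P z) V).filter (fun m : ℕ => ¬ (m : ℝ) ≤ X), wt (P z) m :=
    (Finset.sum_filter_add_sum_filter_not _ _ _).symm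
  have hDsplit : D = D' + ∑ m ∈ (Pool.Agent.H6.HR.box (P z) V).filter (fun m : ℕ => ¬ (m : ℝ) ≤ X),
      wt (P z) m * Real.log (2 * m) :=
    (Finset.sum_filter_add_sum_filter_not _ _ _).symm
  have hW'low : 1 - 1 / L ^ 3 - 1 / L ≤ W' := by linarith
  have hW'up : W' ≤ 1 := by
    have : 0 ≤ ∑ m ∈ (Pool.Agent.H6.HR.box (P z) V).filter (fun m : ℕ => ¬ (m : ℝ) ≤ X), wt (P z) m :=
      Finset.sum_nonneg (fun m _ => wt_nonneg hPz m)
    linarith
  have hD'low : D - 1 / 2 ≤ D' := by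
    have f1 : ∑ m ∈ (Pool.Agent.H6.HR.box (P z) V).filter (fun m : ℕ => ¬ (m : ℝ) ≤ X),
        wt (P z) m * Real.log (2 * m) ≤
        (∑ m ∈ (Pool.Agent.H6.HR.box (P z) V).filter (fun m : ℕ => ¬ (m : ℝ) ≤ X), wt (P z) m) * (L / 2) := by
      rw [Finset.sum_mul]
      apply Finset.sum_le_sum
      intro m hm
      exact mul_le_mul_of_nonneg_left (hs m (Finset.mem_filter.mp hm).1) (wt_nonneg hPz m)
    have f2 : (∑ m ∈ (Pool.Agent.H6.HR.box (P z) V).filter (fun m : ℕ => ¬ (m : ℝ) ≤ X), wt (P z) m) * (L / 2) ≤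
        1 / L * (L / 2) := mul_le_mul_of_nonneg_right htail' (by positivity)
    have f3 : 1 / L * (L / 2) = 1 / 2 := by field_simp
    linarith
  -- the sifting limit
  set Yr := C * x * v / L ^ 2 with hYr
  set y := ⌊Yr⌋₊ with hy
  have hYr0 : 0 < Yr := by rw [hYr]; positivity
  have hyY : (y : ℝ) ≤ Yr := Nat.floor_le hYr0.le
  have hYexp : 2 * Real.exp (3 / 4 * L) ≤ Yr := by
    rw [hYr, le_div_iff₀ (by positivity)]
    have f1 : 2 * L ^ 2 ≤ Real.exp (1 / 4 * L) := by
      have f2 : 2 * L ^ 2 ≤ L ^ 3 := by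
        rw [pow_succ L 2, mul_comm (L ^ 2)]
        exact mul_le_mul_of_nonneg_right (by linarith) (by positivity)
      have f3 : Real.exp (1 / 8 * L) ≤ Real.exp (1 / 4 * L) := Real.exp_le_exp.mpr (by linarith)
      linarith
    calc 2 * Real.exp (3 / 4 * L) * L ^ 2 = Real.exp (3 / 4 * L) * (2 * L ^ 2) := by ring
      _ ≤ Real.exp (3 / 4 * L) * Real.exp (1 / 4 * L) := mul_le_mul_of_nonneg_left f1 (Real.exp_pos _).le
      _ = x := by
          rw [← Real.exp_add, ← hexpL]
          congr 1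
          ring
      _ ≤ C * v * x := by
          exact le_mul_of_one_le_left hx0.le hCv1
      _ = C * x * v := by ring
  have hexp1 : 1 ≤ Real.exp (3 / 4 * L) := Real.one_le_exp (by positivity)
  have hyY2 : Yr / 2 ≤ y := by
    have := Nat.lt_floor_add_one Yr
    rw [hy]
    linarith
  have hyexp : Real.exp (3 / 4 * L) ≤ y := by linarith
  have hzy : z ≤ y := by
    have f1 : (z : ℝ) ≤ y := by
      refine (hzv.trans hv2L).trans (le_trans ?_ hyexp)
      have g1 := Real.quadratic_le_exp_of_nonneg (show 0 ≤ 3 / 4 * L by positivity)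
      have g2 : 100 * L ≤ L ^ 2 := by
        rw [pow_two]
        exact mul_le_mul_of_nonneg_right e10 hL0.le
      have g3 : (3 / 4 * L) ^ 2 / 2 = 9 / 32 * L ^ 2 := by ring
      linarith
    exact_mod_cast f1
  have hly : L / 2 ≤ Real.log y := by
    have f1 := Real.log_le_log (Real.exp_pos _) hyexp
    rw [Real.log_exp] at f1
    linarith
  have hy2 : (2 : ℝ) ≤ y := by
    have := Real.add_one_le_exp (3 / 4 * L)
    linarith
  have hpiy : 1 + (Nat.primeCounting y : ℝ) ≤ (1 + 2 * Cp) * (C * x * v / L ^ 3) := by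
    have h1 := hpile y hy2
    rw [Nat.floor_natCast] at h1
    have h3 : (Nat.primeCounting y : ℝ) ≤ 2 * Cp * (C * x * v / L ^ 3) := by
      calc (Nat.primeCounting y : ℝ) ≤ Cp * y / Real.log y := h1
        _ ≤ Cp * Yr / (L / 2) := by
            apply div_le_div₀ (by positivity) _ (by positivity) hly
            exact mul_le_mul_of_nonneg_left hyY hCp.le
        _ = _ := by
            rw [hYr]
            field_simp
    have h4 : 1 ≤ C * x * v / L ^ 3 := by
      rw [le_div_iff₀ (by positivity), one_mul]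
      calc L ^ 3 ≤ Real.exp (1 / 8 * L) := e12
        _ ≤ Real.exp L := Real.exp_le_exp.mpr (by linarith)
        _ = x := hexpL
        _ ≤ C * v * x := by
          exact le_mul_of_one_le_left hx0.le hCv1
        _ = C * x * v := by ring
    linarith
  -- the sieve
  have hMbox : ∀ m ∈ M, m ≠ 0 ∧ ∀ p ∈ m.primeFactors, p ≤ z := by
    intro m hm
    obtain ⟨h1, h2, -⟩ := box_mem hPz (Finset.mem_filter.mp hm).1
    exact ⟨h1, fun p hp => (mem_P.mp (h2 p hp)).2⟩
  obtain ⟨c, T, hTN, hTc, hTp, hTcard⟩ := exists_T z y (NN x) M hMbox hzy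
  have hNx : 2 * (NN x : ℝ) < x := by
    unfold NN
    have h1 : 0 < ⌈x / 2⌉₊ := Nat.ceil_pos.mpr (by linarith)
    have h2 := Nat.ceil_lt_add_one (show 0 ≤ x / 2 by linarith)
    rw [Nat.cast_sub h1]
    push_cast
    linarith
  have hfloor : ∀ m ∈ M, (Nat.primeCounting ⌊x / (2 * m)⌋₊ : ℝ) ≤
      (Nat.primeCounting (NN x / m) : ℝ) + 1 := by
    intro m hm
    have hm0 : 0 < m := Nat.pos_of_ne_zero (hMbox m hm).1
    have hm0' : (0 : ℝ) < m := by exact_mod_cast hm0
    have h1 : ⌊x / (2 * m)⌋₊ ≤ NN x / m + 1 := by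
      have h2 : x / (2 * m) ≤ ((NN x + 1 : ℕ) : ℝ) / m := by
        rw [div_le_div_iff₀ (by positivity) hm0']
        have h3 : x / 2 ≤ ((NN x + 1 : ℕ) : ℝ) := by
          unfold NN
          have h4 : 0 < ⌈x / 2⌉₊ := Nat.ceil_pos.mpr (by linarith)
          rw [Nat.sub_add_cancel h4]
          exact Nat.le_ceil _
        have h5 := mul_le_mul_of_nonneg_right h3 (show 0 ≤ 2 * (m : ℝ) by positivity)
        have h6 : x / 2 * (2 * (m : ℝ)) = x * m := by ring
        rw [← h6]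
        exact h5
      calc ⌊x / (2 * m)⌋₊ ≤ ⌊((NN x + 1 : ℕ) : ℝ) / m⌋₊ := Nat.floor_le_floor h2
        _ = (NN x + 1) / m := Nat.floor_div_eq_div _ _
        _ ≤ (NN x + m) / m := Nat.div_le_div_right (by omega)
        _ = NN x / m + 1 := Nat.add_div_right _ hm0
    have h2 : Nat.primeCounting ⌊x / (2 * m)⌋₊ ≤ Nat.primeCounting (NN x / m) + 1 :=
      (Nat.monotone_primeCounting h1).trans (primeCounting_succ_le _)
    exact_mod_cast h2
  set Y := x / L ^ 2 with hY
  have hY0 : 0 < Y := by rw [hY]; positivity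
  have hcountM : (M.card : ℝ) * (2 * (1 + (Nat.primeCounting y : ℝ))) ≤ Y := by
    have f1 : (M.card : ℝ) ≤ L ^ (1 - δ / 4) * L ^ (δ / 16) := by
      refine hcount.trans ?_
      apply mul_le_mul _ hE1 hE0.le (by positivity)
      calc X ^ σ ≤ (L ^ 2) ^ σ := by
            apply Real.rpow_le_rpow hX0.le _ (by linarith)
            rw [hX]
            exact div_le_self (by positivity) hCv
        _ = L ^ (1 - δ / 4) := by
            rw [← Real.rpow_natCast, ← Real.rpow_mul hL0.le]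
            congr 1
            rw [hσ]
            push_cast
            ring
    have f2 : 2 * (1 + (Nat.primeCounting y : ℝ)) ≤ (2 * (C * (1 + 2 * Cp)) * v) * (x / L ^ 3) := by
      calc 2 * (1 + (Nat.primeCounting y : ℝ)) ≤ 2 * ((1 + 2 * Cp) * (C * x * v / L ^ 3)) :=
            mul_le_mul_of_nonneg_left hpiy (by norm_num)
        _ = _ := by ring
    have f3 : 2 * (C * (1 + 2 * Cp)) * v ≤ L ^ (δ / 16) := by
      refine le_trans ?_ e8
      have : 0 ≤ C * (1 + 2 * Cp) * v := by positivity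
      linarith
    have f4 : (2 * (C * (1 + 2 * Cp)) * v) * (x / L ^ 3) ≤ L ^ (δ / 16) * (x / L ^ 3) :=
      mul_le_mul_of_nonneg_right f3 (by positivity)
    calc (M.card : ℝ) * (2 * (1 + (Nat.primeCounting y : ℝ)))
        ≤ (L ^ (1 - δ / 4) * L ^ (δ / 16)) * (L ^ (δ / 16) * (x / L ^ 3)) := by
          apply mul_le_mul f1 (f2.trans f4) (by positivity) (by positivity)
      _ = L ^ (1 - δ / 8) * (x / L ^ 3) := by
          rw [← mul_assoc, ← Real.rpow_add hL0, ← Real.rpow_add hL0]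
          congr 2
          ring
      _ ≤ L ^ (1 : ℝ) * (x / L ^ 3) := by
          apply mul_le_mul_of_nonneg_right _ (by positivity)
          exact Real.rpow_le_rpow_of_exponent_le (by linarith) (by linarith)
      _ = Y := by
          rw [Real.rpow_one, hY]
          field_simp
  have hmain : ∑ m ∈ M, 2 * g z m * (Nat.primeCounting ⌊x / (2 * m)⌋₊ : ℝ) - Y ≤ (T.card : ℝ) := by
    refine le_trans ?_ hTcard
    have h1 : ∑ m ∈ M, 2 * g z m * (Nat.primeCounting ⌊x / (2 * m)⌋₊ : ℝ) ≤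
        ∑ m ∈ M, 2 * g z m * ((Nat.primeCounting (NN x / m) : ℝ) - Nat.primeCounting y) +
        ∑ m ∈ M, 2 * (1 + (Nat.primeCounting y : ℝ)) := by
      rw [← Finset.sum_add_distrib]
      apply Finset.sum_le_sum
      intro m hm
      have e1 := hfloor m hm
      have e2 := g_nonneg z m
      have e3 := g_le_one z m
      have e4 : (0 : ℝ) ≤ 1 + (Nat.primeCounting y : ℝ) := by positivity
      have e5 : 2 * g z m * (Nat.primeCounting ⌊x / (2 * m)⌋₊ : ℝ) ≤
          2 * g z m * ((Nat.primeCounting (NN x / m) : ℝ) + 1) :=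
        mul_le_mul_of_nonneg_left e1 (by linarith)
      have e6 : 2 * g z m * (1 + (Nat.primeCounting y : ℝ)) ≤ 2 * 1 * (1 + (Nat.primeCounting y : ℝ)) :=
        mul_le_mul_of_nonneg_right (by linarith) e4
      linarith
    rw [Finset.sum_const, nsmul_eq_mul] at h1
    linarith
  have hS := hsum z M x hx0 (by linarith) (fun m hm =>
    ⟨Nat.one_le_iff_ne_zero.mpr (hMbox m hm).1, hs m (Finset.mem_filter.mp hm).1⟩)
  -- the logarithm of `z`
  have hz0 : (0 : ℝ) < z := by exact_mod_cast (by omega : 0 < z)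
  have hlogz : θ * Real.log v - 1 ≤ Real.log z := by
    have f1 : v ^ θ / 2 ≤ z := by
      have := Nat.lt_floor_add_one (v ^ θ)
      have f2 : (⌊v ^ θ⌋₊ : ℝ) = z := rfl
      rw [f2] at this
      linarith
    have f2 := Real.log_le_log (by positivity) f1
    rw [Real.log_div (by positivity) (by norm_num), Real.log_rpow hv0] at f2
    have := Real.log_two_lt_d9
    linarith
  have hlogz2 : Real.log z ≤ L := by
    have := Real.log_le_sub_one_of_pos hz0
    linarith [hzv.trans hv2L]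
  have hlogz0 : 0 ≤ Real.log z := Real.log_nonneg (by exact_mod_cast (by omega : 1 ≤ z))
  have hxL : x / L = Y * L := by rw [hY]; field_simp
  have hxL3 : x / L ^ 3 = Y / L := by rw [hY]; field_simp
  have hpi1 := (abs_le.mp (hpi x (by linarith))).2
  rw [← hL, ← hY, hxL, hxL3] at hpi1
  have hYL : C3 * (Y / L) ≤ C3 * Y := by
    apply mul_le_mul_of_nonneg_left _ hC3.le
    exact div_le_self hY0.le (by linarith)
  -- the lower bound for the sum
  have hL3 : 1 / L ^ 3 ≤ 1 / L := by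
    apply one_div_le_one_div_of_le hL0
    calc L = L ^ 1 := (pow_one L).symm
      _ ≤ L ^ 3 := pow_le_pow_right₀ (by linarith) (by norm_num)
  have h1L : 1 / L ≤ 1 / 100 := one_div_le_one_div_of_le (by norm_num) e10
  have hWL : Y * L - 2 * Y ≤ Y * L * W' := by
    have f1 : 1 - W' ≤ 2 * (1 / L) := by linarith
    have f2 : Y * L * (1 - W') ≤ Y * L * (2 * (1 / L)) := mul_le_mul_of_nonneg_left f1 (by positivity)
    have f3 : Y * L * (2 * (1 / L)) = 2 * Y := by field_simp
    rw [f3] at f2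
    linarith
  have hWlog : Real.log z - K - 1 ≤ D := by
    refine le_trans ?_ hb
    rcases le_total K (Real.log z) with h | h
    · have f1 : 1 - W ≤ 1 / L := by linarith
      have f2 : (1 - W) * (Real.log z - K) ≤ 1 / L * L := by
        apply mul_le_mul f1 _ (by linarith) (by positivity)
        linarith
      rw [one_div_mul_cancel hL0.ne'] at f2
      linarith
    · have f2 : (1 - W) * (Real.log z - K) ≤ 0 :=
        mul_nonpos_of_nonneg_of_nonpos (by linarith) (by linarith)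
      linarith
  have hsumlow : Y * L + (Real.log z - K - 5 - C2) * Y + Y ≤
      x * (W' / L + (W' + D') / L ^ 2 - C2 * W' / L ^ 3) := by
    have f0 : x * (W' / L + (W' + D') / L ^ 2 - C2 * W' / L ^ 3) =
        Y * L * W' + (W' + D') * Y - C2 * W' * (Y / L) := by
      have : x * (W' / L + (W' + D') / L ^ 2 - C2 * W' / L ^ 3) = (x / L) * W' + (W' + D') * (x / L ^ 2) -
        C2 * W' * (x / L ^ 3) := by ring
      rw [this, hxL3, hxL, ← hY]
    rw [f0]
    have f1 : 1 - W' ≤ 1 := by linarith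
    have f2 : C2 * W' * (Y / L) ≤ C2 * Y := by
      have f3 : Y / L ≤ Y := div_le_self hY0.le (by linarith)
      have f4 : C2 * W' ≤ C2 := by
        have := mul_le_mul_of_nonneg_left hW'up hC2.le
        linarith
      exact mul_le_mul f4 f3 (by positivity) hC2.le
    have f5 : (1 - W') * Y ≤ 1 * Y := mul_le_mul_of_nonneg_right f1 hY0.le
    have f6 : (Real.log z - K - 1 - 1 / 2) * Y ≤ D' * Y :=
      mul_le_mul_of_nonneg_right (by linarith) hY0.le
    linarith
  have htot : (Nat.primeCounting ⌊x⌋₊ : ℝ) + ((2 - 2 * δ) * Real.log v + 4) * Y ≤ (T.card : ℝ) := by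
    have f1 : (Nat.primeCounting ⌊x⌋₊ : ℝ) ≤ Y * L + Y + C3 * Y := by linarith
    have f2 : ((2 - 2 * δ) * Real.log v + 4 + C3 + 1) * Y ≤ (Real.log z - K - 5 - C2) * Y := by
      apply mul_le_mul_of_nonneg_right _ hY0.le
      have : θ * Real.log v = (2 - 2 * δ) * Real.log v + δ * Real.log v := by rw [hθ]; ring
      linarith
    linarith
  -- the translate
  have hinj : Function.Injective (fun n : ℤ => n + NN x) := fun a b h => by
    dsimp only at h
    linarith
  refine ⟨T.image (fun n => n + NN x), ?_, ?_, ?_⟩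
  · intro s hs'
    rw [Finset.mem_image] at hs'
    obtain ⟨n, hn, rfl⟩ := hs'
    have h1 := hTN n hn
    refine ⟨by linarith, ?_⟩
    have h2 : n + NN x ≤ 2 * (NN x : ℤ) := by linarith
    have h3 : ((n + NN x : ℤ) : ℝ) ≤ 2 * (NN x : ℝ) := by exact_mod_cast h2
    linarith
  · intro q hq hqY
    have hqy : q ≤ y := Nat.le_floor hqY
    rcases Nat.lt_or_ge z q with h' | h'
    · refine ⟨NN x, fun s hs' => ?_⟩
      rw [Finset.mem_image] at hs'
      obtain ⟨n, hn, rfl⟩ := hs'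
      rw [add_sub_cancel_right]
      exact hTp n hn q (mem_P.mpr ⟨hq, hqy⟩) h'
    · refine ⟨c q + NN x, fun s hs' => ?_⟩
      rw [Finset.mem_image] at hs'
      obtain ⟨n, hn, rfl⟩ := hs'
      have e : n + (NN x : ℤ) - (c q + NN x) = n - c q := by ring
      rw [e]
      exact hTc n hn q (mem_P.mpr ⟨hq, h'⟩)
  · rw [Finset.card_image_of_injective _ hinj]
    exact htot

end

end Pool.Agent.H3.HR
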