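import Pool.Agent.H3.HR.Big

/-!
# The two theorems
-/

set_option autoImplicit false

open Finset Filter Topology Pool.Agent.H6.HR

namespace Pool.Agent.H3.HR

noncomputable section

theorem excess (ε : ℝ) (hε : 0 < ε) : ∃ x₀ : ℝ, ∀ x : ℝ, x₀ ≤ x → ∃ S : Finset ℤ, 0 ∈ S ∧
    (∀ s ∈ S, 0 ≤ s ∧ (s : ℝ) < x) ∧
    (∀ q : ℕ, q.Prime → ∃ r : ℤ, ∀ s ∈ S, ¬ ((q : ℤ) ∣ s - r)) ∧
    (Nat.primeCounting ⌊x⌋₊ : ℝ) + (2 - ε) * x * Real.log (Real.log (Real.log x)) / (Real.log x) ^ 2 <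
      (S.card : ℝ) := by
  classical
  set δ := min (ε / 2) 1 with hδ
  have hδ0 : 0 < δ := lt_min (by positivity) one_pos
  have hδ1 : 2 * δ ≤ ε := by
    have := min_le_left (ε / 2) (1 : ℝ)
    linarith
  have h := (big (672 * (2 + 1)) (by norm_num) δ hδ0 (min_le_right _ _)).and
    ((irrelevant 2 (by norm_num)).and ((ev_v 1).and ((ev_L 100).and (eventually_ge_atTop 4))))
  obtain ⟨x₀, hx₀⟩ := h.exists_forall_of_atTop
  refine ⟨x₀, fun x hx => ?_⟩
  obtain ⟨⟨T, h1, h2, h3⟩, h4, h5, h6, h7⟩ := hx₀ x hx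
  obtain ⟨S', hS'T, hS'c, hS'q⟩ := h4 T h1 h2
  have hL0 : 0 < Real.log x := by linarith
  have hx0 : 0 < x := by linarith
  set Y := x / (Real.log x) ^ 2 with hY
  have hY0 : 0 < Y := by rw [hY]; positivity
  have hTx : (T.card : ℝ) ≤ 2 * x := by
    have hsub : T ⊆ Finset.Ico 0 (⌈x⌉₊ : ℤ) := by
      intro s hs
      rw [Finset.mem_Ico]
      refine ⟨(h1 s hs).1, ?_⟩
      have : (s : ℝ) < (⌈x⌉₊ : ℝ) := lt_of_lt_of_le (h1 s hs).2 (Nat.le_ceil _)
      exact_mod_cast this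
    have hc := Finset.card_le_card hsub
    rw [Int.card_Ico, sub_zero, Int.toNat_natCast] at hc
    have hc' : (T.card : ℝ) ≤ (⌈x⌉₊ : ℝ) := by exact_mod_cast hc
    have := Nat.ceil_lt_add_one hx0.le
    linarith
  have hS'c' : (T.card : ℝ) - 2 * Y ≤ (S'.card : ℝ) := by
    have e : (Real.log x) ^ (-2 : ℝ) = 1 / (Real.log x) ^ 2 := by
      rw [Real.rpow_neg hL0.le, one_div]
      norm_cast
    rw [e] at hS'c
    have f1 : 1 / (Real.log x) ^ 2 * (T.card : ℝ) ≤ 1 / (Real.log x) ^ 2 * (2 * x) :=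
      mul_le_mul_of_nonneg_left hTx (by positivity)
    have f2 : 1 / (Real.log x) ^ 2 * (2 * x) = 2 * Y := by rw [hY]; ring
    linarith
  have h8 : 0 ≤ Real.log (LL x) := Real.log_nonneg h5
  have hlow : (Nat.primeCounting ⌊x⌋₊ : ℝ) +
      (2 - ε) * x * Real.log (Real.log (Real.log x)) / (Real.log x) ^ 2 + 2 * Y ≤ (S'.card : ℝ) := by
    have e : (2 - ε) * x * Real.log (Real.log (Real.log x)) / (Real.log x) ^ 2 =
        (2 - ε) * (Real.log (LL x) * Y) := by
      rw [hY]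
      unfold LL
      ring
    rw [e]
    have f1 : (2 - ε) * (Real.log (LL x) * Y) ≤ (2 - 2 * δ) * (Real.log (LL x) * Y) := by
      apply mul_le_mul_of_nonneg_right (by linarith)
      positivity
    have f2 : ((2 - 2 * δ) * Real.log (LL x) + 4) * Y = (2 - 2 * δ) * (Real.log (LL x) * Y) + 4 * Y := by ring
    linarith
  have hne : S'.Nonempty := by
    rw [Finset.nonempty_iff_ne_empty]
    intro h0
    rw [h0, Finset.card_empty] at hS'c'
    have f1 : 4 * Y ≤ (T.card : ℝ) := by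
      have f2 : 0 ≤ (2 - 2 * δ) * Real.log (LL x) := by
        have : δ ≤ 1 := min_le_right _ _
        exact mul_nonneg (by linarith) h8
      have f3 : (0 : ℝ) ≤ (Nat.primeCounting ⌊x⌋₊ : ℝ) := by positivity
      have f4 : 4 * Y ≤ ((2 - 2 * δ) * Real.log (LL x) + 4) * Y :=
        mul_le_mul_of_nonneg_right (by linarith) hY0.le
      linarith
    push_cast at hS'c'
    linarith
  set m := S'.min' hne with hm
  have hinj : Function.Injective (fun n : ℤ => n - m) := fun a b h => by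
    dsimp only at h
    linarith
  refine ⟨S'.image (fun n => n - m), ?_, ?_, ?_, ?_⟩
  · rw [Finset.mem_image]
    exact ⟨m, Finset.min'_mem _ _, by ring⟩
  · intro s hs
    rw [Finset.mem_image] at hs
    obtain ⟨n, hn, rfl⟩ := hs
    have g1 := Finset.min'_le S' n hn
    have g2 := h1 n (hS'T hn)
    have g3 := h1 m (hS'T (Finset.min'_mem _ _))
    refine ⟨by omega, ?_⟩
    have g4 : ((n - m : ℤ) : ℝ) ≤ n := by exact_mod_cast (by omega : n - m ≤ n)
    linarith
  · intro q hq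
    obtain ⟨r, hr⟩ := hS'q q hq
    refine ⟨r - m, ?_⟩
    intro s hs
    rw [Finset.mem_image] at hs
    obtain ⟨n, hn, rfl⟩ := hs
    have := hr n hn
    have e : n - m - (r - m) = n - r := by ring
    rw [e]
    exact this
  · rw [Finset.card_image_of_injective _ hinj]
    linarith

end

end Pool.Agent.H3.HR
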