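import Pool.Agent.H3.HR.Base

/-!
# Rankin's bound for smooth numbers
-/

set_option autoImplicit false

open Finset Filter Topology Pool.Agent.H6.HR

namespace Pool.Agent.H3.HR

noncomputable section

theorem rankin_prod {Q : Finset ℕ} (hQ : ∀ w ∈ Q, w.Prime) (V : ℕ) {σ : ℝ} (hσ : 0 < σ) :
    ∑ m ∈ box Q V, (m : ℝ) ^ (-σ) ≤ ∏ w ∈ Q, (1 - (w : ℝ) ^ (-σ))⁻¹ := by
  classical
  induction Q using Finset.induction_on with
  | empty => simp [Pool.Agent.H6.HR.box]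
  | insert w Q hwQ ih =>
    have hw := hQ w (Finset.mem_insert_self _ _)
    have hQ' : ∀ w ∈ Q, w.Prime := fun w' hw' => hQ w' (Finset.mem_insert_of_mem hw')
    have h1 : box (insert w Q) V = (w ^ V * (∏ w ∈ Q, w) ^ V).divisors := by
      unfold Pool.Agent.H6.HR.box
      rw [Finset.prod_insert hwQ, mul_pow]
    have hw0 : (0 : ℝ) ≤ w := by positivity
    have hw1 : (1 : ℝ) < w := by exact_mod_cast hw.one_lt
    have ht0 : 0 ≤ (w : ℝ) ^ (-σ) := by positivity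
    have ht1 : (w : ℝ) ^ (-σ) < 1 := Real.rpow_lt_one_of_one_lt_of_neg hw1 (by linarith)
    rw [h1, sum_divisors_coprime (coprime_pow_prod hw hQ' hwQ), Nat.divisors_prime_pow hw, Finset.sum_map,
      Finset.prod_insert hwQ]
    have h2 : ∀ v ∈ range (V + 1), ∑ b ∈ ((∏ w ∈ Q, w) ^ V).divisors,
        (((⟨(w ^ ·), Nat.pow_right_injective hw.two_le⟩ : ℕ ↪ ℕ) v * b : ℕ) : ℝ) ^ (-σ) =
        ((w : ℝ) ^ (-σ)) ^ v * ∑ b ∈ box Q V, (b : ℝ) ^ (-σ) := by
      intro v _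
      simp only [Function.Embedding.coeFn_mk]
      rw [Finset.mul_sum]
      unfold Pool.Agent.H6.HR.box
      apply Finset.sum_congr rfl
      intro b _
      push_cast
      rw [Real.mul_rpow (by positivity) (by positivity), ← Real.rpow_natCast, ← Real.rpow_natCast,
        ← Real.rpow_mul hw0, ← Real.rpow_mul hw0]
      ring_nf
    rw [Finset.sum_congr rfl h2, ← Finset.sum_mul]
    apply mul_le_mul _ (ih hQ')
    · apply Finset.sum_nonneg
      intro b _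
      positivity
    · rw [inv_nonneg]
      linarith
    · have h3 : ∑ v ∈ range (V + 1), ((w : ℝ) ^ (-σ)) ^ v = (1 - ((w : ℝ) ^ (-σ)) ^ (V + 1)) / (1 - (w : ℝ) ^ (-σ)) := by
        rw [geom_sum_eq ht1.ne, ← neg_div_neg_eq]
        ring_nf
      rw [h3, inv_eq_one_div]
      apply div_le_div_of_nonneg_right _ (by linarith)
      have : 0 ≤ ((w : ℝ) ^ (-σ)) ^ (V + 1) := by positivity
      linarith

theorem sum_inv_sqrt (z : ℕ) : ∑ n ∈ Finset.Icc 1 z, (n : ℝ) ^ (-(1 / 2) : ℝ) ≤ 2 * √z := by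
  induction z with
  | zero => simp
  | succ z ih =>
    rw [Finset.sum_Icc_succ_top (by omega)]
    have h0 : (0 : ℝ) < ((z + 1 : ℕ) : ℝ) := by positivity
    have h1 : ((z + 1 : ℕ) : ℝ) ^ (-(1 / 2) : ℝ) = 1 / √((z + 1 : ℕ) : ℝ) := by
      rw [Real.rpow_neg h0.le, Real.sqrt_eq_rpow, one_div ((_ : ℝ) ^ (_ : ℝ))]
    rw [h1]
    set a := √((z + 1 : ℕ) : ℝ) with ha
    set b := √(z : ℝ) with hb
    have ha0 : 0 < a := Real.sqrt_pos.mpr h0
    have hb0 : 0 ≤ b := Real.sqrt_nonneg _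
    have ha2 : a ^ 2 = (z : ℝ) + 1 := by
      rw [ha, Real.sq_sqrt h0.le]
      push_cast
      ring
    have hb2 : b ^ 2 = (z : ℝ) := Real.sq_sqrt (by positivity)
    have h2 : 1 / a ≤ 2 * a - 2 * b := by
      rw [div_le_iff₀ ha0]
      nlinarith [sq_nonneg (a - b)]
    linarith

/-- Rankin's bound. -/
theorem rankin (z V : ℕ) {σ : ℝ} (h1 : 1 / 4 ≤ σ) (h2 : σ ≤ 1 / 2) :
    ∑ m ∈ box (P z) V, (m : ℝ) ^ (-σ) ≤ Real.exp (14 * (z : ℝ) ^ (1 - σ)) := by
  have hPz : ∀ w ∈ P z, w.Prime := fun w hw => (mem_P.mp hw).1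
  refine (rankin_prod hPz V (by linarith)).trans ?_
  have h3 : ∏ w ∈ P z, (1 - (w : ℝ) ^ (-σ))⁻¹ ≤ ∏ w ∈ P z, Real.exp (7 * (w : ℝ) ^ (-σ)) := by
    apply Finset.prod_le_prod
    · intro w hw
      have hw1 : (1 : ℝ) < w := by exact_mod_cast (hPz w hw).one_lt
      have ht1 : (w : ℝ) ^ (-σ) < 1 := Real.rpow_lt_one_of_one_lt_of_neg hw1 (by linarith)
      rw [inv_nonneg]
      linarith
    · intro w hw
      have hw2 : (2 : ℝ) ≤ w := by exact_mod_cast (hPz w hw).two_le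
      set t := (w : ℝ) ^ (-σ) with ht
      have ht0 : 0 ≤ t := by positivity
      have ht1 : t ≤ 6 / 7 := by
        have e1 : t ≤ (2 : ℝ) ^ (-(1 / 4) : ℝ) := by
          calc t ≤ (2 : ℝ) ^ (-σ) := Real.rpow_le_rpow_of_nonpos (by norm_num) hw2 (by linarith)
            _ ≤ (2 : ℝ) ^ (-(1 / 4) : ℝ) := Real.rpow_le_rpow_of_exponent_le (by norm_num) (by linarith)
        have e2 : ((2 : ℝ) ^ (-(1 / 4) : ℝ)) ^ 4 = 1 / 2 := by
          rw [← Real.rpow_natCast, ← Real.rpow_mul (by norm_num)]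
          norm_num
        have e3 : (0 : ℝ) < (2 : ℝ) ^ (-(1 / 4) : ℝ) := by positivity
        refine e1.trans ?_
        by_contra hcon
        push Not at hcon
        have e4 : ((6 : ℝ) / 7) ^ 4 < ((2 : ℝ) ^ (-(1 / 4) : ℝ)) ^ 4 :=
          pow_lt_pow_left₀ hcon (by norm_num) (by norm_num)
        rw [e2] at e4
        norm_num at e4
      have h4 : 0 < 1 - t := by linarith
      have h5 : (1 - t)⁻¹ ≤ 1 + 7 * t := by
        rw [inv_le_iff_one_le_mul₀ h4]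
        nlinarith
      have := Real.add_one_le_exp (7 * t)
      linarith
  refine h3.trans ?_
  rw [← Real.exp_sum]
  apply Real.exp_le_exp.mpr
  rw [← Finset.mul_sum]
  have h4 : ∑ w ∈ P z, (w : ℝ) ^ (-σ) ≤ ∑ n ∈ Finset.Icc 1 z, (n : ℝ) ^ (-σ) := by
    apply Finset.sum_le_sum_of_subset_of_nonneg
    · unfold P
      exact Finset.filter_subset _ _
    · intro n _ _
      positivity
  have h5 : ∑ n ∈ Finset.Icc 1 z, (n : ℝ) ^ (-σ) ≤
      (z : ℝ) ^ (1 / 2 - σ) * ∑ n ∈ Finset.Icc 1 z, (n : ℝ) ^ (-(1 / 2) : ℝ) := by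
    rw [Finset.mul_sum]
    apply Finset.sum_le_sum
    intro n hn
    rw [Finset.mem_Icc] at hn
    have hn0 : (0 : ℝ) < n := by exact_mod_cast hn.1
    have hnz : (n : ℝ) ≤ z := by exact_mod_cast hn.2
    calc (n : ℝ) ^ (-σ) = (n : ℝ) ^ (1 / 2 - σ) * (n : ℝ) ^ (-(1 / 2) : ℝ) := by
          rw [← Real.rpow_add hn0]
          congr 1
          ring
      _ ≤ _ := by
          apply mul_le_mul_of_nonneg_right _ (by positivity)
          exact Real.rpow_le_rpow hn0.le hnz (by linarith)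
  have h6 := sum_inv_sqrt z
  rcases Nat.eq_zero_or_pos z with hz | hz
  · subst hz
    simp only [P]
    simp
    positivity
  have hz0 : (0 : ℝ) < z := by exact_mod_cast hz
  have h7 : (z : ℝ) ^ (1 / 2 - σ) * (2 * √z) = 2 * (z : ℝ) ^ (1 - σ) := by
    rw [Real.sqrt_eq_rpow, mul_left_comm, ← Real.rpow_add hz0]
    congr 2
    ring
  have h8 : (z : ℝ) ^ (1 / 2 - σ) * ∑ n ∈ Finset.Icc 1 z, (n : ℝ) ^ (-(1 / 2) : ℝ) ≤
      (z : ℝ) ^ (1 / 2 - σ) * (2 * √z) := mul_le_mul_of_nonneg_left h6 (by positivity)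
  linarith

theorem wt_le_inv {Q : Finset ℕ} (hQ : ∀ w ∈ Q, w.Prime) (m : ℕ) : wt Q m ≤ 1 / m := by
  unfold wt
  apply div_le_div_of_nonneg_right _ (by positivity)
  apply Finset.prod_le_one
  · intro w hw
    exact phi_nonneg (hQ w hw).two_le _
  · intro w hw
    have h2 : (2 : ℝ) ≤ w := by exact_mod_cast (hQ w hw).two_le
    unfold phi
    split_ifs
    · exact le_rfl
    · rw [div_le_one (by linarith)]
      linarith

/-- The number of elements of the box below `X`. -/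
theorem box_count (z V : ℕ) {σ X : ℝ} (h1 : 1 / 4 ≤ σ) (h2 : σ ≤ 1 / 2) (hX : 0 < X) :
    (((box (P z) V).filter (fun m : ℕ => (m : ℝ) ≤ X)).card : ℝ) ≤ X ^ σ * Real.exp (14 * (z : ℝ) ^ (1 - σ)) := by
  have hPz : ∀ w ∈ P z, w.Prime := fun w hw => (mem_P.mp hw).1
  have h3 : (((box (P z) V).filter (fun m : ℕ => (m : ℝ) ≤ X)).card : ℝ) ≤
      ∑ m ∈ (box (P z) V).filter (fun m : ℕ => (m : ℝ) ≤ X), X ^ σ * (m : ℝ) ^ (-σ) := by
    rw [Finset.card_eq_sum_ones]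
    push_cast
    apply Finset.sum_le_sum
    intro m hm
    rw [Finset.mem_filter] at hm
    have hm0 : (0 : ℝ) < m := by exact_mod_cast Nat.pos_of_ne_zero (box_mem hPz hm.1).1
    rw [Real.rpow_neg hm0.le, ← div_eq_mul_inv, le_div_iff₀ (by positivity), one_mul]
    exact Real.rpow_le_rpow hm0.le hm.2 (by linarith)
  refine h3.trans ?_
  rw [← Finset.mul_sum]
  apply mul_le_mul_of_nonneg_left _ (by positivity)
  refine le_trans ?_ (rankin z V h1 h2)
  apply Finset.sum_le_sum_of_subset_of_nonneg (Finset.filter_subset _ _)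
  intro m _ _
  positivity

/-- The weight of the elements of the box above `X`. -/
theorem box_tail (z V : ℕ) {σ X : ℝ} (h1 : 1 / 4 ≤ σ) (h2 : σ ≤ 1 / 2) (hX : 0 < X) :
    ∑ m ∈ (box (P z) V).filter (fun m : ℕ => ¬ (m : ℝ) ≤ X), wt (P z) m ≤
      X ^ (-(1 - σ)) * Real.exp (14 * (z : ℝ) ^ (1 - σ)) := by
  have hPz : ∀ w ∈ P z, w.Prime := fun w hw => (mem_P.mp hw).1
  have h3 : ∑ m ∈ (box (P z) V).filter (fun m : ℕ => ¬ (m : ℝ) ≤ X), wt (P z) m ≤
      ∑ m ∈ (box (P z) V).filter (fun m : ℕ => ¬ (m : ℝ) ≤ X), X ^ (-(1 - σ)) * (m : ℝ) ^ (-σ) := by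
    apply Finset.sum_le_sum
    intro m hm
    rw [Finset.mem_filter] at hm
    have hm0 : (0 : ℝ) < m := by exact_mod_cast Nat.pos_of_ne_zero (box_mem hPz hm.1).1
    have hmX : X ≤ m := (not_le.mp hm.2).le
    refine (wt_le_inv hPz m).trans ?_
    have e : 1 / (m : ℝ) = (m : ℝ) ^ (-(1 - σ)) * (m : ℝ) ^ (-σ) := by
      rw [← Real.rpow_add hm0, show -(1 - σ) + -σ = (-1 : ℝ) by ring, Real.rpow_neg_one, one_div]
    rw [e]
    apply mul_le_mul_of_nonneg_right _ (by positivity)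
    exact Real.rpow_le_rpow_of_nonpos hX hmX (by linarith)
  refine h3.trans ?_
  rw [← Finset.mul_sum]
  apply mul_le_mul_of_nonneg_left _ (by positivity)
  refine le_trans ?_ (rankin z V h1 h2)
  apply Finset.sum_le_sum_of_subset_of_nonneg (Finset.filter_subset _ _)
  intro m _ _
  positivity

end

end Pool.Agent.H3.HR
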