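import Mathlib

/-!
# Random thinning, derandomised: a small subset which contains a whole class for every modulus
-/

set_option autoImplicit false

open Finset

namespace Pool.Agent.H3.HR

noncomputable section

/-- Rounding of a function which is affine in every coordinate. -/
theorem rounding {ι : Type*} [DecidableEq ι] (Φ : (ι → ℝ) → ℝ)
    (hΦ : ∀ (p : ι → ℝ) (i : ι), ∃ a b : ℝ, ∀ t : ℝ, Φ (Function.update p i t) = a + b * t)
    (s : Finset ι) (p : ι → ℝ) (hp : ∀ i ∈ s, 0 ≤ p i ∧ p i ≤ 1) :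
    ∃ p' : ι → ℝ, (∀ i, i ∉ s → p' i = p i) ∧ (∀ i ∈ s, p' i = 0 ∨ p' i = 1) ∧ Φ p' ≤ Φ p := by
  induction s using Finset.induction_on with
  | empty => exact ⟨p, fun _ _ => rfl, by simp, le_rfl⟩
  | insert i s his ih =>
    obtain ⟨p1, h1, h2, h3⟩ := ih (fun j hj => hp j (Finset.mem_insert_of_mem hj))
    obtain ⟨a, b, hab⟩ := hΦ p1 i
    have h4 := hp i (Finset.mem_insert_self _ _)
    have h5 : p1 i = p i := h1 i his
    have h6 : Φ p1 = a + b * p i := by
      have := hab (p1 i)
      rw [Function.update_eq_self] at this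
      rw [this, h5]
    rcases le_total 0 b with hb | hb
    · refine ⟨Function.update p1 i 0, ?_, ?_, ?_⟩
      · intro j hj
        rw [Finset.mem_insert, not_or] at hj
        rw [Function.update_of_ne hj.1, h1 j hj.2]
      · intro j hj
        by_cases hji : j = i
        · subst hji
          left
          rw [Function.update_self]
        · rw [Function.update_of_ne hji]
          exact h2 j (by
            rcases Finset.mem_insert.1 hj with h | h
            · exact absurd h hji
            · exact h)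
      · refine le_trans ?_ h3
        rw [hab 0, h6]
        have := mul_nonneg hb h4.1
        linarith
    · refine ⟨Function.update p1 i 1, ?_, ?_, ?_⟩
      · intro j hj
        rw [Finset.mem_insert, not_or] at hj
        rw [Function.update_of_ne hj.1, h1 j hj.2]
      · intro j hj
        by_cases hji : j = i
        · subst hji
          right
          rw [Function.update_self]
        · rw [Function.update_of_ne hji]
          exact h2 j (by
            rcases Finset.mem_insert.1 hj with h | h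
            · exact absurd h hji
            · exact h)
      · refine le_trans ?_ h3
        rw [hab 1, h6]
        nlinarith [h4.2]

theorem affine_sum {ι κ : Type*} [DecidableEq ι] (Q : Finset κ) (F : κ → (ι → ℝ) → ℝ) (p : ι → ℝ) (i : ι)
    (h : ∀ q ∈ Q, ∃ a b : ℝ, ∀ t : ℝ, F q (Function.update p i t) = a + b * t) :
    ∃ a b : ℝ, ∀ t : ℝ, ∑ q ∈ Q, F q (Function.update p i t) = a + b * t := by
  classical
  induction Q using Finset.induction_on with
  | empty => exact ⟨0, 0, fun t => by simp⟩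
  | insert q Q hq ih =>
    obtain ⟨a, b, hab⟩ := ih (fun q' hq' => h q' (Finset.mem_insert_of_mem hq'))
    obtain ⟨a', b', hab'⟩ := h q (Finset.mem_insert_self _ _)
    refine ⟨a' + a, b' + b, fun t => ?_⟩
    rw [Finset.sum_insert hq, hab, hab']
    ring

theorem prod_update {ι : Type*} [DecidableEq ι] (A : Finset ι) (p : ι → ℝ) (i : ι) (t : ℝ) :
    ∏ n ∈ A, Function.update p i t n = if i ∈ A then t * ∏ n ∈ A.erase i, p n else ∏ n ∈ A, p n := by
  split_ifs with h
  · rw [← Finset.mul_prod_erase A _ h, Function.update_self]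
    congr 1
    apply Finset.prod_congr rfl
    intro n hn
    rw [Function.update_of_ne (Finset.ne_of_mem_erase hn)]
  · apply Finset.prod_congr rfl
    intro n hn
    rw [Function.update_of_ne (by rintro rfl; exact h hn)]

theorem affine_prod {ι κ : Type*} [DecidableEq ι] [DecidableEq κ] (C : Finset κ) (A : κ → Finset ι)
    (hA : ∀ c ∈ C, ∀ c' ∈ C, c ≠ c' → Disjoint (A c) (A c')) (p : ι → ℝ) (i : ι) :
    ∃ a b : ℝ, ∀ t : ℝ, ∏ c ∈ C, (1 - ∏ n ∈ A c, Function.update p i t n) = a + b * t := by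
  by_cases h : ∃ c ∈ C, i ∈ A c
  · obtain ⟨c0, hc0, hi⟩ := h
    refine ⟨∏ c ∈ C.erase c0, (1 - ∏ n ∈ A c, p n),
      -((∏ n ∈ (A c0).erase i, p n) * ∏ c ∈ C.erase c0, (1 - ∏ n ∈ A c, p n)), fun t => ?_⟩
    rw [← Finset.mul_prod_erase C _ hc0]
    have h1 : ∏ c ∈ C.erase c0, (1 - ∏ n ∈ A c, Function.update p i t n) =
        ∏ c ∈ C.erase c0, (1 - ∏ n ∈ A c, p n) := by
      apply Finset.prod_congr rfl
      intro c hc
      rw [prod_update, if_neg]
      intro hic
      exact Finset.disjoint_left.1 (hA c (Finset.mem_of_mem_erase hc) c0 hc0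
        (Finset.ne_of_mem_erase hc)) hic hi
    rw [h1, prod_update, if_pos hi]
    ring
  · refine ⟨∏ c ∈ C, (1 - ∏ n ∈ A c, p n), 0, fun t => ?_⟩
    rw [zero_mul, add_zero]
    apply Finset.prod_congr rfl
    intro c hc
    rw [prod_update, if_neg (fun hic => h ⟨c, hc, hic⟩)]

/-- **Thinning.**  A small set which contains one of the sets `A q c`, `c ∈ C q`, for every `q ∈ Q`. -/
theorem thin {ι κ μ : Type*} [DecidableEq ι] [DecidableEq κ] (T : Finset ι) (Q : Finset μ)
    (C : μ → Finset κ) (A : μ → κ → Finset ι)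
    (hA : ∀ q ∈ Q, ∀ c ∈ C q, ∀ c' ∈ C q, c ≠ c' → Disjoint (A q c) (A q c'))
    (hAT : ∀ q ∈ Q, ∀ c ∈ C q, A q c ⊆ T) (τ γ : ℝ) (hτ0 : 0 ≤ τ) (hτ1 : τ ≤ 1) (hγ : 0 ≤ γ)
    (hsum : ∑ q ∈ Q, ∏ c ∈ C q, (1 - τ ^ (A q c).card) + γ * (τ * T.card) < 1) :
    ∃ D ⊆ T, γ * D.card < 1 ∧ ∀ q ∈ Q, ∃ c ∈ C q, A q c ⊆ D := by
  classical
  set Φ : (ι → ℝ) → ℝ := fun p => ∑ q ∈ Q, ∏ c ∈ C q, (1 - ∏ n ∈ A q c, p n) +
    γ * ∑ n ∈ T, p n with hΦ
  have haff : ∀ (p : ι → ℝ) (i : ι), ∃ a b : ℝ, ∀ t : ℝ, Φ (Function.update p i t) = a + b * t := by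
    intro p i
    obtain ⟨a, b, h1⟩ := affine_sum Q (fun q p => ∏ c ∈ C q, (1 - ∏ n ∈ A q c, p n)) p i
      (fun q hq => affine_prod (C q) (A q) (hA q hq) p i)
    obtain ⟨a', b', h2⟩ : ∃ a b : ℝ, ∀ t : ℝ, ∑ n ∈ T, Function.update p i t n = a + b * t := by
      by_cases hi : i ∈ T
      · refine ⟨∑ n ∈ T.erase i, p n, 1, fun t => ?_⟩
        rw [← Finset.add_sum_erase T _ hi, Function.update_self]
        rw [Finset.sum_congr rfl (fun n hn => Function.update_of_ne (Finset.ne_of_mem_erase hn) t p)]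
        ring
      · refine ⟨∑ n ∈ T, p n, 0, fun t => ?_⟩
        rw [zero_mul, add_zero]
        apply Finset.sum_congr rfl
        intro n hn
        rw [Function.update_of_ne (by rintro rfl; exact hi hn)]
    refine ⟨a + γ * a', b + γ * b', fun t => ?_⟩
    show ∑ q ∈ Q, ∏ c ∈ C q, (1 - ∏ n ∈ A q c, Function.update p i t n) +
      γ * ∑ n ∈ T, Function.update p i t n = _
    rw [h1, h2]
    ring
  obtain ⟨p', -, h2, h3⟩ := rounding Φ haff T (fun _ => τ) (fun _ _ => ⟨hτ0, hτ1⟩)
  have h4 : Φ (fun _ => τ) < 1 := by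
    simp only [hΦ, Finset.prod_const, Finset.sum_const, nsmul_eq_mul]
    rw [mul_comm (T.card : ℝ) τ]
    exact hsum
  have h5 : Φ p' < 1 := lt_of_le_of_lt h3 h4
  have hval : ∀ q ∈ Q, ∀ c ∈ C q, (∏ n ∈ A q c, p' n = 0 ∨ ∏ n ∈ A q c, p' n = 1) := by
    intro q hq c hc
    by_cases h : ∃ n ∈ A q c, p' n = 0
    · obtain ⟨n, hn, hn0⟩ := h
      left
      exact Finset.prod_eq_zero hn hn0
    · right
      apply Finset.prod_eq_one
      intro n hn
      rcases h2 n (hAT q hq c hc hn) with h6 | h6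
      · exact absurd ⟨n, hn, h6⟩ h
      · exact h6
  have hnn : ∀ q ∈ Q, 0 ≤ ∏ c ∈ C q, (1 - ∏ n ∈ A q c, p' n) := by
    intro q hq
    apply Finset.prod_nonneg
    intro c hc
    rcases hval q hq c hc with h | h <;> rw [h] <;> norm_num
  have hTnn : 0 ≤ ∑ n ∈ T, p' n := by
    apply Finset.sum_nonneg
    intro n hn
    rcases h2 n hn with h | h <;> rw [h]
    norm_num
  have hsum' : ∑ q ∈ Q, ∏ c ∈ C q, (1 - ∏ n ∈ A q c, p' n) < 1 := by
    have h6 : Φ p' = ∑ q ∈ Q, ∏ c ∈ C q, (1 - ∏ n ∈ A q c, p' n) + γ * ∑ n ∈ T, p' n := rfl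
    have h7 := mul_nonneg hγ hTnn
    linarith
  refine ⟨T.filter (fun n => p' n = 1), Finset.filter_subset _ _, ?_, ?_⟩
  · have h6 : Φ p' = ∑ q ∈ Q, ∏ c ∈ C q, (1 - ∏ n ∈ A q c, p' n) + γ * ∑ n ∈ T, p' n := rfl
    have h7 : ∑ n ∈ T, p' n = ((T.filter (fun n => p' n = 1)).card : ℝ) := by
      rw [Finset.card_filter]
      push_cast
      apply Finset.sum_congr rfl
      intro n hn
      rcases h2 n hn with h | h
      · rw [h, if_neg (by norm_num)]
      · rw [h, if_pos rfl]
    rw [← h7]
    have h8 := Finset.sum_nonneg hnn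
    linarith
  · intro q hq
    by_contra hcon
    push Not at hcon
    have h6 : ∏ c ∈ C q, (1 - ∏ n ∈ A q c, p' n) = 1 := by
      apply Finset.prod_eq_one
      intro c hc
      rcases hval q hq c hc with h | h
      · rw [h, sub_zero]
      · exfalso
        apply hcon c hc
        intro n hn
        rw [Finset.mem_filter]
        refine ⟨hAT q hq c hc hn, ?_⟩
        rcases h2 n (hAT q hq c hc hn) with h7 | h7
        · rw [Finset.prod_eq_zero hn h7] at h
          exact absurd h (by norm_num)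
        · exact h7
    have h7 := Finset.single_le_sum (f := fun q => ∏ c ∈ C q, (1 - ∏ n ∈ A q c, p' n)) hnn hq
    linarith

/-- The elements of `T` in a residue class. -/
def cls (T : Finset ℤ) (q c : ℕ) : Finset ℤ := T.filter (fun n => (q : ℤ) ∣ n - c)

theorem cls_disjoint (T : Finset ℤ) {q c c' : ℕ} (hc : c < q) (hc' : c' < q) (h : c ≠ c') :
    Disjoint (cls T q c) (cls T q c') := by
  rw [Finset.disjoint_left]
  intro n hn hn'
  unfold cls at hn hn'
  rw [Finset.mem_filter] at hn hn'
  have h1 : (q : ℤ) ∣ (c' : ℤ) - c := by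
    have := dvd_sub hn.2 hn'.2
    have e : n - (c : ℤ) - (n - c') = (c' : ℤ) - c := by ring
    rwa [e] at this
  have h2 : (c' : ℤ) - c = 0 := by
    apply Int.eq_zero_of_abs_lt_dvd h1
    rw [abs_lt]
    constructor <;> omega
  omega

theorem sum_cls (T : Finset ℤ) {q : ℕ} (hq : 0 < q) : ∑ c ∈ range q, (cls T q c).card = T.card := by
  classical
  rw [← Finset.card_biUnion (fun c hc c' hc' h => cls_disjoint T (Finset.mem_range.1 hc) (Finset.mem_range.1 hc') h)]
  congr 1
  ext n
  rw [Finset.mem_biUnion]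
  constructor
  · rintro ⟨c, -, hn⟩
    exact (Finset.mem_filter.1 hn).1
  · intro hn
    have hq' : (0 : ℤ) < q := by exact_mod_cast hq
    have h1 := Int.emod_nonneg n hq'.ne'
    have h2 := Int.emod_lt_of_pos n hq'
    refine ⟨(n % q).toNat, ?_, ?_⟩
    · rw [Finset.mem_range]
      omega
    · unfold cls
      rw [Finset.mem_filter]
      refine ⟨hn, ?_⟩
      rw [Int.toNat_of_nonneg h1]
      exact Int.dvd_self_sub_emod

/-- At least half of the classes are small. -/
theorem half_small (T : Finset ℤ) {q M : ℕ} (hq : 0 < q) (hM : 2 * T.card ≤ q * (M + 1)) :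
    q ≤ 2 * ((range q).filter (fun c => (cls T q c).card ≤ M)).card := by
  classical
  have h1 := Finset.card_filter_add_card_filter_not (s := range q) (fun c => (cls T q c).card ≤ M)
  rw [card_range] at h1
  have h2 : ((range q).filter (fun c => ¬ (cls T q c).card ≤ M)).card * (M + 1) ≤ T.card := by
    rw [← sum_cls T hq, ← smul_eq_mul]
    refine le_trans ?_ (Finset.sum_le_sum_of_subset (Finset.filter_subset (fun c => ¬ (cls T q c).card ≤ M) (range q)))
    apply Finset.card_nsmul_le_sum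
    intro c hc
    rw [Finset.mem_filter] at hc
    omega
  have h3 : 2 * (((range q).filter (fun c => ¬ (cls T q c).card ≤ M)).card * (M + 1)) ≤ q * (M + 1) := by
    omega
  have h4 : 2 * ((range q).filter (fun c => ¬ (cls T q c).card ≤ M)).card ≤ q := by
    apply Nat.le_of_mul_le_mul_right _ (Nat.succ_pos M)
    calc 2 * ((range q).filter (fun c => ¬ (cls T q c).card ≤ M)).card * (M + 1) =
        2 * (((range q).filter (fun c => ¬ (cls T q c).card ≤ M)).card * (M + 1)) := by ring
      _ ≤ q * (M + 1) := h3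
  omega

/-- **Thinning, residue classes.**  After the deletion of few elements a set misses a class modulo every prime
`q` with `y < q ≤ K`. -/
theorem thin_classes (T : Finset ℤ) {y K M : ℕ} {τ : ℝ} (hy : 0 < y) (hM : 2 * T.card ≤ y * (M + 1))
    (hτ0 : 0 < τ) (hτ1 : τ ≤ 1) (hexp : (K : ℝ) * Real.exp (-(τ ^ M * (y / 2))) < 1 / 2) :
    ∃ S ⊆ T, (T.card : ℝ) - 2 * τ * (T.card + 1) ≤ (S.card : ℝ) ∧
      ∀ q : ℕ, y < q → q ≤ K → ∃ c : ℤ, ∀ n ∈ S, ¬ (q : ℤ) ∣ n - c := by
  classical
  set γ : ℝ := 1 / (2 * τ * (T.card + 1)) with hγ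
  have hγ0 : 0 < γ := by positivity
  obtain ⟨D, hDT, hDcard, hD⟩ := thin T (Finset.Ioc y K)
    (fun q => (range q).filter (fun c => (cls T q c).card ≤ M)) (fun q c => cls T q c)
    (fun q _ c hc c' hc' h => cls_disjoint T (Finset.mem_range.1 (Finset.mem_filter.1 hc).1)
      (Finset.mem_range.1 (Finset.mem_filter.1 hc').1) h)
    (fun q _ c _ => Finset.filter_subset _ _) τ γ hτ0.le hτ1 hγ0.le (by
      have h1 : ∀ q ∈ Finset.Ioc y K, ∏ c ∈ (range q).filter (fun c => (cls T q c).card ≤ M),
          (1 - τ ^ (cls T q c).card) ≤ Real.exp (-(τ ^ M * (y / 2))) := by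
        intro q hq
        rw [Finset.mem_Ioc] at hq
        have h2 : ∏ c ∈ (range q).filter (fun c => (cls T q c).card ≤ M),
          (1 - τ ^ (cls T q c).card) ≤ ∏ c ∈ (range q).filter (fun c => (cls T q c).card ≤ M),
            Real.exp (-(τ ^ M)) := by
          apply Finset.prod_le_prod
          · intro c _
            have := pow_le_one₀ hτ0.le hτ1 (n := (cls T q c).card)
            linarith
          · intro c hc
            have h3 : τ ^ M ≤ τ ^ (cls T q c).card :=
              pow_le_pow_of_le_one hτ0.le hτ1 (Finset.mem_filter.1 hc).2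
            have h4 := Real.add_one_le_exp (-(τ ^ M))
            linarith
        refine h2.trans ?_
        rw [Finset.prod_const, ← Real.exp_nat_mul]
        apply Real.exp_le_exp.2
        have h5 := half_small T (q := q) (M := M) (by omega) (hM.trans (Nat.mul_le_mul_right _ hq.1.le))
        have h6 : (y : ℝ) / 2 ≤ (((range q).filter (fun c => (cls T q c).card ≤ M)).card : ℝ) := by
          have h7 : y ≤ 2 * ((range q).filter (fun c => (cls T q c).card ≤ M)).card := by omega
          have h8 : (y : ℝ) ≤ 2 * (((range q).filter (fun c => (cls T q c).card ≤ M)).card : ℝ) := by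
            exact_mod_cast h7
          linarith
        have h7 := mul_le_mul_of_nonneg_left h6 (pow_pos hτ0 M).le
        linarith
      have h2 : ∑ q ∈ Finset.Ioc y K, ∏ c ∈ (range q).filter (fun c => (cls T q c).card ≤ M),
          (1 - τ ^ (cls T q c).card) ≤ (K : ℝ) * Real.exp (-(τ ^ M * (y / 2))) := by
        refine (Finset.sum_le_sum h1).trans ?_
        rw [Finset.sum_const, nsmul_eq_mul, Nat.card_Ioc]
        apply mul_le_mul_of_nonneg_right _ (Real.exp_pos _).le
        exact_mod_cast Nat.sub_le K y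
      have h3 : γ * (τ * T.card) ≤ 1 / 2 := by
        rw [hγ, div_mul_eq_mul_div, one_mul, div_le_iff₀ (by positivity)]
        nlinarith
      linarith)
  refine ⟨T \ D, Finset.sdiff_subset, ?_, ?_⟩
  · have h1 : (D.card : ℝ) ≤ 2 * τ * (T.card + 1) := by
      rw [hγ, div_mul_eq_mul_div, one_mul, div_lt_one (by positivity)] at hDcard
      exact hDcard.le
    have h2 : T.card ≤ (T \ D).card + D.card := by
      have := Finset.card_sdiff_add_card_eq_card hDT
      omega
    have h3 : (T.card : ℝ) ≤ ((T \ D).card : ℝ) + D.card := by exact_mod_cast h2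
    linarith
  · intro q hq hqK
    obtain ⟨c, -, hc⟩ := hD q (Finset.mem_Ioc.2 ⟨hq, hqK⟩)
    refine ⟨c, fun n hn hdvd => ?_⟩
    rw [Finset.mem_sdiff] at hn
    exact hn.2 (hc (Finset.mem_filter.2 ⟨hn.1, hdvd⟩))

end

end Pool.Agent.H3.HR
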